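import Pool.Agent.H90.LT.Sing

/-! # The classes modulo `q` and the constants -/

set_option autoImplicit false

namespace Pool.Agent.H90.LT

open Finset Filter Topology Polynomial Pool.Agent.N782.GN Pool.Agent.H90.SK Pool.Agent.Helper112 Pool.Agent.H92L

variable {Q : ℕ} {G : ℤ → ℤ → Prop}

open Classical in
/-- the classes `m` modulo `Q q` in the class `b` modulo `q` with the condition and `a² + m²` coprime to `q` -/
noncomputable def kap (Q : ℕ) (G : ℤ → ℤ → Prop) (a : ℤ) (q : ℕ) (b : ℤ) : ℕ :=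
  ((range (Q * q)).filter (fun m : ℕ => (q : ℤ) ∣ (m : ℤ) - b ∧ G a m ∧ IsCoprime (a ^ 2 + (m : ℤ) ^ 2) (q : ℤ))).card

/-- the sieve without the primes that divide `Q` -/
noncomputable def om' (Q : ℕ) (a : ℤ) (p : ℕ) : Finset ℕ := if p ∣ Q then ∅ else omP (pol a) p

theorem adm' (Q : ℕ) (a : ℤ) : Adm 2 (om' Q a) := by
  intro p hp
  unfold om'
  split_ifs with h
  · exact ⟨by simp, by simp, by simpa using hp.pos⟩
  · exact adm_pol a p hp

open Classical in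
/-- the allowed classes modulo `Q` in the class `b` modulo `d` -/
noncomputable def clb (Q : ℕ) (G : ℤ → ℤ → Prop) (a : ℤ) (d b : ℕ) : ℕ :=
  ((cl Q G a).filter (fun c : ℕ => c ≡ b [MOD d])).card

theorem clb_le (a : ℤ) (d b : ℕ) : clb Q G a d b ≤ (cl Q G a).card := by
  classical
  exact card_filter_le _ _

theorem G_mod (hG : Per Q G) (a : ℤ) {m m' : ℕ} (h : m ≡ m' [MOD Q]) : G a m ↔ G a m' := by
  apply hG.iff (by simp)
  have := (Nat.modEq_iff_dvd).1 h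
  rw [← neg_sub]
  exact (dvd_neg).2 this

open Classical in
theorem kap0 (hG : Per Q G) (a : ℤ) {q : ℕ} (hq : 1 ≤ q) (b : ℕ) :
    (((range (Q * q)).filter (fun m : ℕ => m ≡ b [MOD q] ∧ G a m)).card : ℝ) =
      (Nat.gcd q Q : ℝ) * clb Q G a (Nat.gcd q Q) b := by
  have hQ := hG.one
  set d := Nat.gcd q Q with hd
  set L := Nat.lcm q Q with hL
  have hdL : d * L = q * Q := Nat.gcd_mul_lcm q Q
  have hqL : q ∣ L := Nat.dvd_lcm_left q Q
  have hQL : Q ∣ L := Nat.dvd_lcm_right q Q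
  have hL0 : 0 < L := Nat.lcm_pos (by omega) (by omega)
  have hdq : d ∣ q := Nat.gcd_dvd_left q Q
  have hdQ : d ∣ Q := Nat.gcd_dvd_right q Q
  set f : ℕ → ℝ := fun m => if m ≡ b [MOD q] ∧ G a m then 1 else 0 with hf
  have h1 := sum_modT L d f
  have h2 : ∀ m ∈ range (L * d), f (m % L) = f m := by
    intro m _
    have e1 : m % L ≡ m [MOD L] := Nat.mod_modEq m L
    have e2 : m % L ≡ b [MOD q] ↔ m ≡ b [MOD q] :=
      ⟨fun h => ((e1.of_dvd hqL).symm).trans h, fun h => (e1.of_dvd hqL).trans h⟩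
    have e3 : G a ((m % L : ℕ) : ℤ) ↔ G a m := G_mod hG a (e1.of_dvd hQL)
    simp only [hf, e2, e3]
  rw [sum_congr rfl h2] at h1
  have e0 : Q * q = L * d := by
    rw [mul_comm Q q, ← hdL, mul_comm]
  have h3 : (((range (Q * q)).filter (fun m : ℕ => m ≡ b [MOD q] ∧ G a m)).card : ℝ) = ∑ m ∈ range (L * d), f m := by
    rw [e0, hf, ← sum_filter, sum_const, nsmul_eq_mul, mul_one]
  rw [h3, h1]
  congr 1
  have h4 : ∑ m ∈ range L, f m = (((range L).filter (fun m : ℕ => m ≡ b [MOD q] ∧ G a m)).card : ℝ) := by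
    rw [hf, ← sum_filter, sum_const, nsmul_eq_mul, mul_one]
  rw [h4]
  norm_cast
  unfold clb cl
  apply card_bij (fun m _ => m % Q)
  · intro m hm
    rw [mem_filter, mem_range] at hm
    rw [mem_filter, mem_filter, mem_range]
    have e1 : m % Q ≡ m [MOD Q] := Nat.mod_modEq m Q
    exact ⟨⟨Nat.mod_lt _ (by omega), (G_mod hG a e1).2 hm.2.2⟩, (e1.of_dvd hdQ).trans (hm.2.1.of_dvd hdq)⟩
  · intro m hm m' hm' hmm
    rw [mem_filter, mem_range] at hm hm'
    have e1 : m ≡ m' [MOD Q] := hmm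
    have e2 : m ≡ m' [MOD q] := hm.2.1.trans hm'.2.1.symm
    have e3 : m ≡ m' [MOD L] := by
      rw [Nat.modEq_iff_dvd] at e1 e2 ⊢
      rw [← Int.natAbs_dvd_natAbs] at e1 e2 ⊢
      rw [Int.natAbs_natCast] at e1 e2 ⊢
      exact Nat.lcm_dvd e2 e1
    exact e3.eq_of_lt_of_lt hm.1 hm'.1
  · intro c hc
    rw [mem_filter, mem_filter, mem_range] at hc
    obtain ⟨⟨hc1, hc2⟩, hc3⟩ := hc
    obtain ⟨k, hk1, hk2⟩ := Nat.chineseRemainder' (show b ≡ c [MOD Nat.gcd q Q] from hc3.symm)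
    have e1 : k % L ≡ k [MOD L] := Nat.mod_modEq k L
    have e2 : k % L ≡ c [MOD Q] := (e1.of_dvd hQL).trans hk2
    refine ⟨k % L, ?_, ?_⟩
    · rw [mem_filter, mem_range]
      exact ⟨Nat.mod_lt _ hL0, (e1.of_dvd hqL).trans hk1, (G_mod hG a e2).2 hc2⟩
    · have : k % L % Q = c % Q := e2
      rw [this, Nat.mod_eq_of_lt hc1]

theorem cop_iff (x : ℤ) {q : ℕ} (hq : 1 ≤ q) : IsCoprime x (q : ℤ) ↔ ∀ p ∈ q.primeFactors, ¬ (p : ℤ) ∣ x := by
  constructor
  · intro h p hp hd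
    have hpp := Nat.prime_of_mem_primeFactors hp
    have h1 : (p : ℤ) ∣ (q : ℤ) := Int.natCast_dvd_natCast.2 (Nat.dvd_of_mem_primeFactors hp)
    have h2 := h.isUnit_of_dvd' hd h1
    have h3 := Int.isUnit_iff_natAbs_eq.1 h2
    rw [Int.natAbs_natCast] at h3
    exact hpp.one_lt.ne' h3
  · intro h
    rw [Int.isCoprime_iff_gcd_eq_one]
    by_contra hcon
    obtain ⟨p, hp, hpd⟩ := Nat.exists_prime_and_dvd hcon
    have h1 : (p : ℤ) ∣ x := (Int.natCast_dvd_natCast.2 hpd).trans (Int.gcd_dvd_left _ _)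
    have h2 : (p : ℤ) ∣ (q : ℤ) := (Int.natCast_dvd_natCast.2 hpd).trans (Int.gcd_dvd_right _ _)
    exact h p (Nat.mem_primeFactors.2 ⟨hp, by exact_mod_cast h2, by omega⟩) h1

theorem open_iff (hG : Per Q G) (a : ℤ) {q : ℕ} (hq : 1 ≤ q) {m b : ℕ} (hmb : m ≡ b [MOD q]) (hm : G a m) :
    IsCoprime (a ^ 2 + (m : ℤ) ^ 2) (q : ℤ) ↔ AD (om' Q a) q b := by
  rw [cop_iff _ hq]
  unfold AD
  apply forall₂_congr
  intro p hp
  have hpp := Nat.prime_of_mem_primeFactors hp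
  have hpq := Nat.dvd_of_mem_primeFactors hp
  unfold om'
  split_ifs with hpQ
  · simp only [notMem_empty, not_false_eq_true, iff_true]
    intro hd
    have h1 := hG.cop hm
    have h2 : (p : ℤ) ∣ (Q : ℤ) := Int.natCast_dvd_natCast.2 hpQ
    have h3 := Int.isUnit_iff_natAbs_eq.1 (h1.isUnit_of_dvd' hd h2)
    rw [Int.natAbs_natCast] at h3
    exact hpp.one_lt.ne' h3
  · rw [mem_om a hpp.pos]
    apply not_congr
    have h1 : (p : ℤ) ∣ (b : ℤ) - m := (Int.natCast_dvd_natCast.2 hpq).trans ((Nat.modEq_iff_dvd).1 hmb)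
    have h2 : (p : ℤ) ∣ ((b : ℤ) ^ 2 + a ^ 2) - (a ^ 2 + (m : ℤ) ^ 2) := by
      have : ((b : ℤ) ^ 2 + a ^ 2) - (a ^ 2 + (m : ℤ) ^ 2) = ((b : ℤ) - m) * (b + m) := by ring
      rw [this]
      exact h1.mul_right _
    constructor
    · intro h
      have := dvd_add h2 h
      rwa [sub_add_cancel] at this
    · intro h
      have := dvd_sub h h2
      rwa [sub_sub_cancel] at this

theorem dvd_iff_mod {q m b : ℕ} : (q : ℤ) ∣ (m : ℤ) - (b : ℤ) ↔ m ≡ b [MOD q] := by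
  rw [Nat.modEq_iff_dvd, ← neg_sub, dvd_neg]

theorem kap_eq (hG : Per Q G) (a : ℤ) {q : ℕ} (hq : 1 ≤ q) (b : ℕ) :
    (kap Q G a q b : ℝ) = (Nat.gcd q Q : ℝ) * clb Q G a (Nat.gcd q Q) b * (ad (om' Q a) q * mm (om' Q a) q b) := by
  classical
  have had := ad_pos (adm' Q a) hq
  unfold mm
  by_cases h : AD (om' Q a) q b
  · rw [if_pos h]
    have e : (ad (om' Q a) q : ℝ) * (1 / (ad (om' Q a) q : ℝ)) = 1 := by field_simp
    rw [e, mul_one, ← kap0 hG a hq b]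
    unfold kap
    rw [Nat.cast_inj]
    apply congrArg Finset.card
    apply filter_congr
    intro m _
    rw [dvd_iff_mod]
    constructor
    · rintro ⟨h1, h2, _⟩
      exact ⟨h1, h2⟩
    · rintro ⟨h1, h2⟩
      exact ⟨h1, h2, (open_iff hG a hq h1 h2).2 h⟩
  · rw [if_neg h, mul_zero, mul_zero]
    unfold kap
    rw [Nat.cast_eq_zero, card_eq_zero, filter_eq_empty_iff]
    intro m _
    rw [dvd_iff_mod]
    rintro ⟨h1, h2, h3⟩
    exact h ((open_iff hG a hq h1 h2).1 h3)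

/-- the weight of the class -/
noncomputable def WW (Q : ℕ) (G : ℤ → ℤ → Prop) (a : ℤ) (q : ℕ) (b : ℕ) : ℝ :=
  (kap Q G a q b : ℝ) / ((cl Q G a).card * ad (om' Q a) q)

theorem WW_eq (hG : Per Q G) (a : ℤ) {q : ℕ} (hq : 1 ≤ q) (b : ℕ) :
    WW Q G a q b = (Nat.gcd q Q : ℝ) * clb Q G a (Nat.gcd q Q) b / (cl Q G a).card * mm (om' Q a) q b := by
  have had := ad_pos (adm' Q a) hq
  unfold WW
  rw [kap_eq hG a hq b]
  by_cases hc : ((cl Q G a).card : ℝ) = 0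
  · rw [hc]
    simp
  · field_simp

/-- the bound for the weights -/
theorem WW_V (hG : Per Q G) : ∃ C : ℝ, 0 < C ∧ ∀ (a : ℤ) (K P B : ℕ), 1 ≤ K →
    (∀ d, 1 ≤ d → d ≤ K → d ∣ P) → Q ∣ P → 1 ≤ B →
    ∑ q ∈ Ico B (2 * B), ∑ b ∈ range q,
      ((Nat.gcd q P / q : ℝ) * WW Q G a (Nat.gcd q P) (b % Nat.gcd q P) - WW Q G a q b) ^ 2 ≤ C / K := by
  classical
  obtain ⟨C, hC, h⟩ := VQ_sum 2 (by norm_num)
  have hQ := hG.one
  refine ⟨(Q : ℝ) ^ 2 * C, by positivity, fun a K P B hK hKP hQP hB => ?_⟩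
  have h1 := h (om' Q a) (adm' Q a) K P B hK hKP hB
  have h2 : ∀ q ∈ Ico B (2 * B), ∀ b ∈ range q,
      ((Nat.gcd q P / q : ℝ) * WW Q G a (Nat.gcd q P) (b % Nat.gcd q P) - WW Q G a q b) ^ 2 ≤
      (Q : ℝ) ^ 2 * ((Nat.gcd q P / q : ℝ) * mm (om' Q a) (Nat.gcd q P) (b % Nat.gcd q P) - mm (om' Q a) q b) ^ 2 := by
    intro q hq b _
    rw [mem_Ico] at hq
    have hq1 : 1 ≤ q := by omega
    have hg1 : 1 ≤ Nat.gcd q P := Nat.gcd_pos_of_pos_left P (by omega)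
    rw [WW_eq hG a hq1, WW_eq hG a hg1]
    have e1 : Nat.gcd (Nat.gcd q P) Q = Nat.gcd q Q := by
      rw [Nat.gcd_assoc, Nat.gcd_eq_right hQP]
    have e2 : clb Q G a (Nat.gcd q Q) (b % Nat.gcd q P) = clb Q G a (Nat.gcd q Q) b := by
      unfold clb
      congr 1
      apply filter_congr
      intro c _
      have e3 : b % Nat.gcd q P ≡ b [MOD Nat.gcd q Q] := by
        apply (Nat.mod_modEq b (Nat.gcd q P)).of_dvd
        rw [← e1]
        exact Nat.gcd_dvd_left _ _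
      exact ⟨fun h => h.trans e3, fun h => h.trans e3.symm⟩
    rw [e1, e2]
    set s : ℝ := (Nat.gcd q Q : ℝ) * clb Q G a (Nat.gcd q Q) b / (cl Q G a).card with hs
    have e4 : (Nat.gcd q P / q : ℝ) * (s * mm (om' Q a) (Nat.gcd q P) (b % Nat.gcd q P)) - s * mm (om' Q a) q b =
        s * ((Nat.gcd q P / q : ℝ) * mm (om' Q a) (Nat.gcd q P) (b % Nat.gcd q P) - mm (om' Q a) q b) := by ring
    rw [e4, mul_pow]
    apply mul_le_mul_of_nonneg_right _ (sq_nonneg _)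
    have hs0 : 0 ≤ s := by positivity
    have hs1 : s ≤ Q := by
      rw [hs]
      by_cases hc : (cl Q G a).card = 0
      · rw [hc]
        simp
      · have hc0 : (0 : ℝ) < (cl Q G a).card := by exact_mod_cast Nat.pos_of_ne_zero hc
        rw [div_le_iff₀ hc0]
        apply mul_le_mul _ _ (by positivity) (by positivity)
        · exact_mod_cast Nat.le_of_dvd (by omega) (Nat.gcd_dvd_right q Q)
        · exact_mod_cast clb_le a _ _
    exact pow_le_pow_left₀ hs0 hs1 2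
  calc _ ≤ ∑ q ∈ Ico B (2 * B), ∑ b ∈ range q,
      (Q : ℝ) ^ 2 * ((Nat.gcd q P / q : ℝ) * mm (om' Q a) (Nat.gcd q P) (b % Nat.gcd q P) - mm (om' Q a) q b) ^ 2 :=
        sum_le_sum fun q hq => sum_le_sum fun b hb => h2 q hq b hb
    _ = (Q : ℝ) ^ 2 * ∑ q ∈ Ico B (2 * B), ∑ b ∈ range q,
        ((Nat.gcd q P / q : ℝ) * mm (om' Q a) (Nat.gcd q P) (b % Nat.gcd q P) - mm (om' Q a) q b) ^ 2 := by
        simp only [mul_sum]
    _ ≤ (Q : ℝ) ^ 2 * (C / K) := mul_le_mul_of_nonneg_left h1 (by positivity)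
    _ = _ := by ring

/-- the totient and the singular series -/
theorem phi_SS (a : ℤ) (ha : a ≠ 0) (hQ : 1 ≤ Q) {q : ℕ} (hq : 1 ≤ q) :
    (Nat.totient (Q * q) : ℝ) * SS ((Q : ℤ) * a) = Nat.totient Q * ad (om' Q a) q * SS ((Q : ℤ) * a * q) := by
  classical
  have hQa : (Q : ℤ) * a ≠ 0 := mul_ne_zero (by exact_mod_cast (by omega : Q ≠ 0)) ha
  rw [SS_split hQa hq, ad_eq (adm' Q a) hq]
  have hφ : ∀ n : ℕ, (Nat.totient n : ℝ) = n * ∏ p ∈ n.primeFactors, (1 - 1 / (p : ℝ)) := by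
    intro n
    have := Nat.totient_eq_mul_prod_factors n
    have h2 : ((Nat.totient n : ℚ) : ℝ) = ((n * ∏ p ∈ n.primeFactors, (1 - (p : ℚ)⁻¹) : ℚ) : ℝ) := by rw [this]
    push_cast at h2
    rw [h2]
    simp only [one_div]
  rw [hφ (Q * q), hφ Q]
  have hpf : (Q * q).primeFactors = Q.primeFactors ∪ (q.primeFactors.filter (fun p => ¬ p ∣ Q)) := by
    rw [Nat.primeFactors_mul (by omega) (by omega)]
    ext p
    rw [mem_union, mem_union, mem_filter]
    constructor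
    · rintro (h | h)
      · exact Or.inl h
      · by_cases hpQ : p ∣ Q
        · left
          exact Nat.mem_primeFactors.2 ⟨Nat.prime_of_mem_primeFactors h, hpQ, by omega⟩
        · exact Or.inr ⟨h, hpQ⟩
    · rintro (h | h)
      · exact Or.inl h
      · exact Or.inr h.1
  rw [hpf, prod_union (by
    rw [disjoint_left]
    intro p h1 h2
    exact (mem_filter.1 h2).2 (Nat.dvd_of_mem_primeFactors h1))]
  have h1 : ∏ p ∈ q.primeFactors, (1 - ((om' Q a p).card : ℝ) / p) =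
      (∏ p ∈ q.primeFactors.filter (fun p => ¬ p ∣ Q), (1 - 1 / (p : ℝ))) *
        ∏ p ∈ q.primeFactors.filter (fun p : ℕ => p ≠ 2 ∧ ¬ (p : ℤ) ∣ (Q : ℤ) * a), fc p := by
    have e1 : ∀ p ∈ q.primeFactors, (1 - ((om' Q a p).card : ℝ) / p) =
        (if ¬ p ∣ Q then (1 - 1 / (p : ℝ)) else 1) * (if p ≠ 2 ∧ ¬ (p : ℤ) ∣ (Q : ℤ) * a then fc p else 1) := by
      intro p hp
      have hpp := Nat.prime_of_mem_primeFactors hp
      have hpi : Prime (p : ℤ) := Nat.prime_iff_prime_int.1 hpp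
      unfold om'
      by_cases hpQ : p ∣ Q
      · rw [if_pos hpQ, if_neg (by simpa using hpQ), if_neg]
        · simp
        · rintro ⟨_, h3⟩
          exact h3 (Dvd.dvd.mul_right (Int.natCast_dvd_natCast.2 hpQ) a)
      · rw [if_neg hpQ, if_pos hpQ, om_fac a hpp]
        congr 1
        have : (p : ℤ) ∣ (Q : ℤ) * a ↔ (p : ℤ) ∣ a := by
          rw [hpi.dvd_mul, Int.natCast_dvd_natCast]
          tauto
        simp only [this]
    rw [prod_congr rfl e1, prod_mul_distrib, ← prod_filter, ← prod_filter]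
  rw [h1]
  push_cast
  ring

/-- the constant of the class -/
noncomputable def CC (Q : ℕ) (G : ℤ → ℤ → Prop) (a : ℤ) (q : ℕ) (b : ℤ) : ℝ :=
  (kap Q G a q b : ℝ) / Nat.totient (Q * q) * SS ((Q : ℤ) * a * q)

/-- the constant of all classes together -/
noncomputable def C0 (Q : ℕ) (G : ℤ → ℤ → Prop) (a : ℤ) : ℝ :=
  ((cl Q G a).card : ℝ) / Nat.totient Q * SS ((Q : ℤ) * a)

theorem CC_eq (hG : Per Q G) {a : ℤ} (ha : a ≠ 0) (hc : 0 < (cl Q G a).card) {q : ℕ} (hq : 1 ≤ q) (b : ℕ) :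
    CC Q G a q b = C0 Q G a * WW Q G a q b := by
  have hQ := hG.one
  have h1 := phi_SS a ha hQ hq
  have h2 := ad_pos (adm' Q a) hq
  have h3 : (0 : ℝ) < Nat.totient Q := by exact_mod_cast Nat.totient_pos.2 (by omega)
  have h4 : (0 : ℝ) < Nat.totient (Q * q) := by exact_mod_cast Nat.totient_pos.2 (Nat.mul_pos (by omega) (by omega))
  have h5 : (0 : ℝ) < (cl Q G a).card := by exact_mod_cast hc
  unfold CC C0 WW
  rw [div_mul_eq_mul_div, div_mul_eq_mul_div, div_mul_div_comm, div_eq_div_iff h4.ne' (by positivity)]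
  linear_combination ((kap Q G a q b : ℝ) * (cl Q G a).card) * (-1 : ℝ) * h1

theorem CC_one (Q : ℕ) (G : ℤ → ℤ → Prop) (a : ℤ) : CC Q G a 1 0 = C0 Q G a := by
  classical
  have h1 : kap Q G a 1 0 = (cl Q G a).card := by
    unfold kap cl
    rw [mul_one]
    congr 1
    apply filter_congr
    intro m _
    simp [isCoprime_one_right]
  unfold CC C0
  rw [h1]
  simp

end Pool.Agent.H90.LT
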