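import Pool.Agent.H90.LT.Ord

/-! # The law for large moduli -/

set_option autoImplicit false

namespace Pool.Agent.H90.LT

open Finset Filter Topology Polynomial Pool.Agent.N782.GN Pool.Agent.H90.SK Pool.Agent.Helper112 Pool.Agent.H92L
open Pool.Agent.Results.MP_0bf1d2_nt.EveryNLargeModuli (count relative count_mod expected expected_eq primeArguments
  NoFixedPrime rel)

variable {Q : ℕ} {G : ℤ → ℤ → Prop}

theorem SP_sub (G : ℤ → ℤ → Prop) (a : ℤ) : SP G a ⊆ primeArguments (pol a) := by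
  intro m hm i
  have h := hm.2.1
  rw [← natAbs_eq] at h
  rw [pol_eval, add_comm]
  exact h

/-- the errors -/
theorem small (κ P : ℝ) (hκ : 0 < κ) : ∃ y₀ : ℝ, 16 ≤ y₀ ∧ ∀ x : ℝ, y₀ ≤ √x →
    2 * (√x / (Real.log x) ^ 10) + 2 * P ≤ κ * (√x / (Real.log x) ^ 4) := by
  have h1 : ∀ᶠ y : ℝ in atTop, ‖Real.log y ^ 4‖ ≤ (κ / (64 * (|P| + 1))) * ‖id y‖ :=
    (Real.isLittleO_pow_log_id_atTop (n := 4)).def (by positivity)
  have h2 : ∀ᶠ y : ℝ in atTop, 4 / κ ≤ Real.log y ^ 6 := by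
    have := (tendsto_pow_atTop (by norm_num : (6 : ℕ) ≠ 0)).comp Real.tendsto_log_atTop
    exact this.eventually_ge_atTop _
  obtain ⟨y₁, hy₁⟩ := eventually_atTop.1 (h1.and h2)
  refine ⟨max 16 y₁, le_max_left _ _, fun x hx => ?_⟩
  have hy16 : 16 ≤ √x := (le_max_left _ _).trans hx
  obtain ⟨e1, e2⟩ := hy₁ _ ((le_max_right _ _).trans hx)
  have hx0 : 0 ≤ x := by
    by_contra hcon
    have := Real.sqrt_eq_zero_of_nonpos (by linarith : x ≤ 0)
    linarith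
  set y := √x with hy
  have hyy : x = y * y := (Real.mul_self_sqrt hx0).symm
  have hl : Real.log x = 2 * Real.log y := by
    rw [hyy, Real.log_mul (by linarith) (by linarith)]
    ring
  have hly : 0 < Real.log y := Real.log_pos (by linarith)
  rw [hl]
  rw [Real.norm_of_nonneg (by positivity), id, Real.norm_of_nonneg (by linarith)] at e1
  have e3 : 2 * (y / (2 * Real.log y) ^ 10) ≤ κ / 2 * (y / (2 * Real.log y) ^ 4) := by
    have : 2 * (y / (2 * Real.log y) ^ 10) = (2 / (2 * Real.log y) ^ 6) * (y / (2 * Real.log y) ^ 4) := by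
      field_simp
    rw [this]
    apply mul_le_mul_of_nonneg_right _ (by positivity)
    rw [div_le_div_iff₀ (by positivity) (by norm_num), mul_pow]
    rw [div_le_iff₀ hκ] at e2
    nlinarith
  have e4 : 2 * P ≤ κ / 2 * (y / (2 * Real.log y) ^ 4) := by
    have e5 : 2 * |P| ≤ κ / 2 * (y / (2 * Real.log y) ^ 4) := by
      rw [← mul_div_assoc, le_div_iff₀ (by positivity), mul_pow]
      have hP0 : 0 ≤ |P| := abs_nonneg P
      have e6 : Real.log y ^ 4 * (64 * (|P| + 1)) ≤ κ * y := by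
        have := mul_le_mul_of_nonneg_right e1 (by positivity : 0 ≤ 64 * (|P| + 1))
        have e : κ / (64 * (|P| + 1)) * y * (64 * (|P| + 1)) = κ * y := by field_simp
        linarith
      nlinarith [pow_pos hly 4]
    linarith [le_abs_self P]
  linarith

/-- **The law for large moduli.** -/
theorem law (hG : Per Q G) {E : Set ℤ}
    (hU : ∀ (q : ℕ) (G : ℤ → ℤ → Prop), Per q G → ∀ (ε : ℝ) (A : ℕ), 0 < ε → ∃ a₀ : ℝ, ∀ a : ℤ, a ∉ E → a₀ ≤ |(a : ℝ)| →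
      ∀ x : ℝ, |(a : ℝ)| ^ (2 + ε) ≤ x → x ≤ |(a : ℝ)| ^ (3 - ε) →
        |(piG G a x : ℝ) - cst q G a * ∫ t in (2 : ℝ)..(Real.sqrt x), 1 / (2 * Real.log t)| ≤
          Real.sqrt x / (Real.log x) ^ A) {ρ ε : ℝ} (hρ : 0 < ρ) (hε : 0 < ε) :
    ∃ δ a₀ : ℝ, 0 < δ ∧ 1 ≤ a₀ ∧ ∀ a : ℤ, a ∉ E → a₀ ≤ |(a : ℝ)| → ∀ x : ℝ, |(a : ℝ)| ^ (2 + ρ) ≤ x →
      x ≤ |(a : ℝ)| ^ (3 - ρ) → ∀ K : ℕ, 1 ≤ K → (K : ℝ) ≤ δ * (C0 Q G a * Li x) →
        ∑ q ∈ Ico K (2 * K), ∑ b ∈ range q, (NN G a x q (b : ℕ) - CC Q G a q (b : ℕ) * Li x) ^ 2 ≤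
          ε * (C0 Q G a * Li x) ^ 2 := by
  classical
  have hQ := hG.one
  obtain ⟨c₁, c₂, a₁, hc₁, hc₂, ha₁, hcmp⟩ := order_cmp hQ hρ
  obtain ⟨c₃, a₂, hc₃, ha₂, hlow⟩ := order_low hρ
  obtain ⟨a₃, ha₃, hXX⟩ := XX_bounds hρ
  obtain ⟨C, hC, hWW⟩ := WW_V hG
  obtain ⟨P₀, x₀, δ₁, hP₀, hx₀, hδ₁, hrel⟩ := rel 2 (by norm_num) (ε / (36 * c₂ ^ 2)) (by positivity)
  set K₀ : ℕ := ⌈9 * C / ε⌉₊ + 1 with hK₀
  have hK₀1 : 1 ≤ K₀ := by omega
  have hK₀0 : (0 : ℝ) < K₀ := by exact_mod_cast hK₀1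
  have hCK : C / K₀ ≤ ε / 9 := by
    rw [div_le_div_iff₀ hK₀0 (by norm_num)]
    have h1 : 9 * C / ε ≤ K₀ := by
      rw [hK₀]
      push_cast
      linarith [Nat.le_ceil (9 * C / ε)]
    rw [div_le_iff₀ hε] at h1
    linarith
  set P : ℕ := P₀ * K₀.factorial * Q with hP
  have hP1 : 1 ≤ P := Nat.mul_pos (Nat.mul_pos hP₀ (Nat.factorial_pos _)) hQ
  have hP0 : (0 : ℝ) < P := by exact_mod_cast hP1
  have hKP : ∀ d, 1 ≤ d → d ≤ K₀ → d ∣ P := by
    intro d hd1 hd2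
    exact Dvd.dvd.mul_right (Dvd.dvd.mul_left (Nat.dvd_factorial hd1 hd2) _) _
  have hQP : Q ∣ P := Dvd.intro_left _ rfl
  have hP₀P : P₀ ∣ P := Dvd.dvd.mul_right (Dvd.intro _ rfl) _
  -- the fixed classes
  have hfix : ∀ g b : ℕ, ∃ a₄ : ℝ, 1 ≤ g → ∀ a : ℤ, a ∉ E → a₄ ≤ |(a : ℝ)| → ∀ x : ℝ, |(a : ℝ)| ^ (2 + ρ) ≤ x →
      x ≤ |(a : ℝ)| ^ (3 - ρ) → |NN G a x g b - CC Q G a g b * Li x| ≤ 2 * (Real.sqrt x / (Real.log x) ^ 10) + 2 * g := by
    intro g b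
    by_cases hg : 1 ≤ g
    · obtain ⟨a₄, h⟩ := fixed_class hG hU hg b hρ 10
      exact ⟨a₄, fun _ => h⟩
    · exact ⟨0, fun h => absurd h hg⟩
  choose f hf using hfix
  set a₄ : ℝ := ∑ g ∈ range (P + 1), ∑ b ∈ range (P + 1), |f g b| with ha₄
  have hf4 : ∀ g b, g ≤ P → b ≤ P → f g b ≤ a₄ := by
    intro g b hg hb
    calc f g b ≤ |f g b| := le_abs_self _
      _ ≤ ∑ b ∈ range (P + 1), |f g b| :=
          single_le_sum (f := fun b => |f g b|) (fun _ _ => abs_nonneg _) (mem_range.2 (by omega))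
      _ ≤ a₄ := single_le_sum (f := fun g => ∑ b ∈ range (P + 1), |f g b|)
          (fun _ _ => sum_nonneg fun _ _ => abs_nonneg _) (mem_range.2 (by omega))
  obtain ⟨y₀, hy₀, hsmall⟩ := small (√ε * c₃ / (3 * P * c₂)) P (by positivity)
  refine ⟨δ₁ * c₁, max a₁ (max a₂ (max a₃ (max a₄ (max y₀ x₀)))), by positivity, ha₁.trans (le_max_left _ _),
    fun a haE ha x hx1 hx2 K hK hKδ => ?_⟩
  have hA1 : a₁ ≤ |(a : ℝ)| := (le_max_left _ _).trans ha
  have ha' := (le_max_right _ _).trans ha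
  have hA2 : a₂ ≤ |(a : ℝ)| := (le_max_left _ _).trans ha'
  have ha'' := (le_max_right _ _).trans ha'
  have hA3 : a₃ ≤ |(a : ℝ)| := (le_max_left _ _).trans ha''
  have ha''' := (le_max_right _ _).trans ha''
  have hA4 : a₄ ≤ |(a : ℝ)| := (le_max_left _ _).trans ha'''
  have ha'''' := (le_max_right _ _).trans ha'''
  have hA5 : y₀ ≤ |(a : ℝ)| := (le_max_left _ _).trans ha''''
  have hA6 : (x₀ : ℝ) ≤ |(a : ℝ)| := (le_max_right _ _).trans ha''''
  have hane : a ≠ 0 := by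
    rintro rfl
    have := ha₁.trans hA1
    simp at this
    linarith
  have hcl : 0 < (cl Q G a).card := by
    rcases Nat.eq_zero_or_pos (cl Q G a).card with h | h
    · exfalso
      have h1 : C0 Q G a = 0 := by
        unfold C0
        rw [h]
        simp
      rw [h1, zero_mul, mul_zero] at hKδ
      have : (1 : ℝ) ≤ K := by exact_mod_cast hK
      linarith
    · exact h
  obtain ⟨o1, o2⟩ := hcmp G a hA1 hcl x hx1
  have o3 := hlow a hA2 x hx1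
  obtain ⟨z1, z2, z3, z4⟩ := hXX a hA3 x hx1
  have hX0 : x₀ ≤ XX a x := by exact_mod_cast hA6.trans z4
  set R := C0 Q G a * Li x with hR
  have hEpos : 0 ≤ expected (pol a) (XX a x) := by
    rw [expected_eq]
    have := VV_pos (adm_pol a) (XX a x)
    positivity
  have hx16 : 16 ≤ √x := by linarith [hy₀.trans hA5, abs_nonneg (a : ℝ)]
  have hlx : 0 < Real.log x := by
    apply Real.log_pos
    by_contra hcon
    have := Real.sqrt_le_sqrt (not_lt.1 hcon)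
    rw [Real.sqrt_one] at this
    linarith
  have hRpos : 0 < R := by
    have h1 : 0 < c₃ * (√x / (Real.log x) ^ 4) := by positivity
    have h2 : 0 < c₂ * R := lt_of_lt_of_le h1 (o3.trans o2)
    exact (mul_pos_iff_of_pos_left hc₂).1 h2
  -- the relative law
  have hr := hrel 1 (pol a) (fun i => by rw [pol_deg]; norm_num) (pol_sum a) (pol_nofix a) (SP G a) (SP_sub G a)
    (XX a x) hX0 P hP1 hP₀P K hK (by
      calc (K : ℝ) ≤ δ₁ * c₁ * R := hKδ
        _ = δ₁ * (c₁ * R) := by ring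
        _ ≤ δ₁ * expected (pol a) (XX a x) := mul_le_mul_of_nonneg_left o1 hδ₁.le)
  have hr2 := (relT_NN hG a x P K hK).trans (mul_le_mul_of_nonneg_left hr (by norm_num))
  have hE2 : expected (pol a) (XX a x) ^ 2 ≤ (c₂ * R) ^ 2 := pow_le_pow_left₀ hEpos o2 2
  have hr3 : 3 * relT (fun q b => NN G a x q (b : ℕ)) P K ≤ ε / 3 * R ^ 2 := by
    calc 3 * relT (fun q b => NN G a x q (b : ℕ)) P K ≤
          3 * (4 * (ε / (36 * c₂ ^ 2) * expected (pol a) (XX a x) ^ 2)) := by linarith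
      _ ≤ 3 * (4 * (ε / (36 * c₂ ^ 2) * (c₂ * R) ^ 2)) := by
          apply mul_le_mul_of_nonneg_left _ (by norm_num)
          apply mul_le_mul_of_nonneg_left _ (by norm_num)
          exact mul_le_mul_of_nonneg_left hE2 (by positivity)
      _ = ε / 3 * R ^ 2 := by
          field_simp
          ring
  -- the error of the fixed classes
  obtain ⟨η, hη⟩ : ∃ η, η = 2 * (√x / (Real.log x) ^ 10) + 2 * (P : ℝ) := ⟨_, rfl⟩
  have hη0 : 0 ≤ η := by rw [hη]; positivity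
  have hη1 : P * η ≤ √ε / 3 * R := by
    have h1 := hsmall x (by linarith [abs_nonneg (a : ℝ)])
    rw [← hη] at h1
    have h2 : c₃ * (√x / (Real.log x) ^ 4) ≤ c₂ * R := o3.trans o2
    calc P * η ≤ P * (√ε * c₃ / (3 * P * c₂) * (√x / (Real.log x) ^ 4)) := mul_le_mul_of_nonneg_left h1 hP0.le
      _ = √ε / (3 * c₂) * (c₃ * (√x / (Real.log x) ^ 4)) := by field_simp
      _ ≤ √ε / (3 * c₂) * (c₂ * R) := mul_le_mul_of_nonneg_left h2 (by positivity)
      _ = √ε / 3 * R := by field_simp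
  have hη2 : 3 * ((P : ℝ) ^ 2 * η ^ 2) ≤ ε / 3 * R ^ 2 := by
    have h1 : (P * η) ^ 2 ≤ (√ε / 3 * R) ^ 2 := pow_le_pow_left₀ (by positivity) hη1 2
    have h2 : (√ε / 3 * R) ^ 2 = ε / 9 * R ^ 2 := by
      rw [mul_pow, div_pow, Real.sq_sqrt hε.le]
      norm_num
    rw [h2, mul_pow] at h1
    linarith
  have hmain := explicitW (W := WW Q G a) (fun q b => NN G a x q (b : ℕ)) (fun g b => NN_mod a x g b) hP1 hK R η (C / K₀)
    (hWW a K₀ P K hK₀1 hKP hQP hK) (fun g hg1 hgP b hb => by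
      have hgP' : g ≤ P := Nat.le_of_dvd hP1 hgP
      have h1 := hf g b hg1 a haE ((hf4 g b hgP' (by omega)).trans hA4) x hx1 hx2
      have h2 : CC Q G a g b * Li x = R * WW Q G a g b := by
        rw [CC_eq hG hane hcl hg1 b, hR]
        ring
      rw [h2] at h1
      refine h1.trans ?_
      rw [hη]
      have : (g : ℝ) ≤ P := by exact_mod_cast hgP'
      linarith)
  have hlast : 3 * (R ^ 2 * (C / K₀)) ≤ ε / 3 * R ^ 2 := by
    have := mul_le_mul_of_nonneg_left hCK (sq_nonneg R)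
    linarith
  have hsum : ∑ q ∈ Ico K (2 * K), ∑ b ∈ range q, (NN G a x q (b : ℕ) - CC Q G a q (b : ℕ) * Li x) ^ 2 =
      ∑ q ∈ Ico K (2 * K), ∑ b ∈ range q, (NN G a x q (b : ℕ) - R * WW Q G a q b) ^ 2 := by
    apply sum_congr rfl
    intro q hq
    rw [mem_Ico] at hq
    apply sum_congr rfl
    intro b _
    rw [CC_eq hG hane hcl (by omega : 1 ≤ q) b, hR]
    ring
  rw [hsum]
  linarith

end Pool.Agent.H90.LT
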