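import Pool.Agent.H90.LT.Two

/-! # Mean squares: general weights, and both signs -/

set_option autoImplicit false

namespace Pool.Agent.H90.LT

open Finset Filter Topology Polynomial Pool.Agent.N782.GN Pool.Agent.H90.SK Pool.Agent.Helper112 Pool.Agent.H92L
open Pool.Agent.Results.MP_0bf1d2_nt.EveryNLargeModuli (count relative count_mod)

variable {Q : ℕ} {G : ℤ → ℤ → Prop}

/-- **From small moduli to large moduli, with explicit main terms.** -/
theorem explicitW {W : ℕ → ℕ → ℝ} (cnt : ℕ → ℕ → ℝ) (hmod : ∀ g a, cnt g a = cnt g (a % g))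
    {P Q : ℕ} (hP : 1 ≤ P) (hQ : 1 ≤ Q) (R η V : ℝ)
    (hV : ∑ q ∈ Ico Q (2 * Q), ∑ a ∈ range q,
      ((Nat.gcd q P / q : ℝ) * W (Nat.gcd q P) (a % Nat.gcd q P) - W q a) ^ 2 ≤ V)
    (hfix : ∀ g, 1 ≤ g → g ∣ P → ∀ a, a < g → |cnt g a - R * W g a| ≤ η) :
    ∑ q ∈ Ico Q (2 * Q), ∑ a ∈ range q, (cnt q a - R * W q a) ^ 2 ≤
      3 * relT cnt P Q + 3 * ((P : ℝ) ^ 2 * η ^ 2) + 3 * (R ^ 2 * V) := by
  have hQ0 : (0 : ℝ) < Q := by exact_mod_cast hQ
  have h1 : ∀ q ∈ Ico Q (2 * Q), ∀ a ∈ range q, (cnt q a - R * W q a) ^ 2 ≤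
      3 * (cnt q a - (Nat.gcd q P / q : ℝ) * cnt (Nat.gcd q P) a) ^ 2 + 3 * ((P : ℝ) / q * η) ^ 2 +
        3 * (R ^ 2 * ((Nat.gcd q P / q : ℝ) * W (Nat.gcd q P) (a % Nat.gcd q P) - W q a) ^ 2) := by
    intro q hq a _
    rw [mem_Ico] at hq
    have hq1 : 1 ≤ q := by omega
    have hq0 : (0 : ℝ) < q := by exact_mod_cast hq1
    set g := Nat.gcd q P with hg
    have hg1 : 1 ≤ g := Nat.gcd_pos_of_pos_right q hP
    have hgP : g ≤ P := Nat.le_of_dvd hP (Nat.gcd_dvd_right q P)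
    have e1 := hfix g hg1 (Nat.gcd_dvd_right q P) (a % g) (Nat.mod_lt _ hg1)
    rw [← hmod] at e1
    have e2 : |(g / q : ℝ) * (cnt g a - R * W g (a % g))| ≤ (P : ℝ) / q * η := by
      rw [abs_mul, abs_of_nonneg (by positivity)]
      apply mul_le_mul _ e1 (abs_nonneg _) (by positivity)
      apply div_le_div_of_nonneg_right _ hq0.le
      exact_mod_cast hgP
    have e3 : ((g / q : ℝ) * (cnt g a - R * W g (a % g))) ^ 2 ≤ ((P : ℝ) / q * η) ^ 2 := by
      rw [← sq_abs]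
      exact pow_le_pow_left₀ (abs_nonneg _) e2 2
    obtain ⟨x, hx⟩ : ∃ x, x = cnt q a - (g / q : ℝ) * cnt g a := ⟨_, rfl⟩
    obtain ⟨y, hy⟩ : ∃ y, y = (g / q : ℝ) * (cnt g a - R * W g (a % g)) := ⟨_, rfl⟩
    obtain ⟨z, hz⟩ : ∃ z, z = (g / q : ℝ) * W g (a % g) - W q a := ⟨_, rfl⟩
    have e4 : cnt q a - R * W q a = x + y + R * z := by
      rw [hx, hy, hz]
      ring
    rw [e4, ← hx, ← hz]
    rw [← hy] at e3
    have e5 : R ^ 2 * z ^ 2 = (R * z) ^ 2 := by ring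
    rw [e5]
    nlinarith [sq_nonneg (x - y), sq_nonneg (x - R * z), sq_nonneg (y - R * z)]
  have h2 : ∑ q ∈ Ico Q (2 * Q), ∑ a ∈ range q, ((P : ℝ) / q * η) ^ 2 ≤ (P : ℝ) ^ 2 * η ^ 2 := by
    have h3 : ∀ q ∈ Ico Q (2 * Q), ∑ a ∈ range q, ((P : ℝ) / q * η) ^ 2 ≤ (P : ℝ) ^ 2 * η ^ 2 * (1 / Q) := by
      intro q hq
      rw [mem_Ico] at hq
      have hq0 : (0 : ℝ) < q := by exact_mod_cast (by omega : 0 < q)
      rw [sum_const, card_range, nsmul_eq_mul]
      have : (q : ℝ) * ((P : ℝ) / q * η) ^ 2 = (P : ℝ) ^ 2 * η ^ 2 * (1 / q) := by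
        field_simp
      rw [this]
      apply mul_le_mul_of_nonneg_left _ (by positivity)
      apply one_div_le_one_div_of_le hQ0
      exact_mod_cast hq.1
    refine (sum_le_sum h3).trans ?_
    rw [sum_const, Nat.card_Ico, nsmul_eq_mul]
    have : ((2 * Q - Q : ℕ) : ℝ) = Q := by
      have : 2 * Q - Q = Q := by omega
      rw [this]
    rw [this]
    apply le_of_eq
    field_simp
  calc _ ≤ ∑ q ∈ Ico Q (2 * Q), ∑ a ∈ range q,
        (3 * (cnt q a - (Nat.gcd q P / q : ℝ) * cnt (Nat.gcd q P) a) ^ 2 + 3 * ((P : ℝ) / q * η) ^ 2 +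
        3 * (R ^ 2 * ((Nat.gcd q P / q : ℝ) * W (Nat.gcd q P) (a % Nat.gcd q P) - W q a) ^ 2)) :=
        sum_le_sum fun q hq => sum_le_sum fun a ha => h1 q hq a ha
    _ = 3 * relT cnt P Q + 3 * (∑ q ∈ Ico Q (2 * Q), ∑ a ∈ range q, ((P : ℝ) / q * η) ^ 2) +
        3 * (R ^ 2 * ∑ q ∈ Ico Q (2 * Q), ∑ a ∈ range q,
          ((Nat.gcd q P / q : ℝ) * W (Nat.gcd q P) (a % Nat.gcd q P) - W q a) ^ 2) := by
        unfold relT
        simp only [sum_add_distrib, mul_sum]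
    _ ≤ _ := by
        have h4 := mul_le_mul_of_nonneg_left hV (sq_nonneg R)
        linarith

theorem NN_mod (a : ℤ) (x : ℝ) (g b : ℕ) : NN G a x g b = NN G a x g ((b % g : ℕ) : ℤ) := by
  unfold NN
  congr 2
  ext m
  simp only [Set.mem_ofPred_eq]
  have h : (g : ℤ) ∣ (b : ℤ) - ((b % g : ℕ) : ℤ) := ⟨(b / g : ℕ), by
    have := Nat.div_add_mod b g
    have h2 : (b : ℤ) = g * (b / g : ℕ) + (b % g : ℕ) := by exact_mod_cast this.symm
    linear_combination h2⟩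
  have h2 : (g : ℤ) ∣ m - b ↔ (g : ℤ) ∣ m - ((b % g : ℕ) : ℤ) := by
    constructor
    · intro h3
      have := dvd_add h3 h
      have e : m - b + (b - ((b % g : ℕ) : ℤ)) = m - ((b % g : ℕ) : ℤ) := by ring
      rwa [e] at this
    · intro h3
      have := dvd_sub h3 h
      have e : m - ((b % g : ℕ) : ℤ) - (b - ((b % g : ℕ) : ℤ)) = m - b := by ring
      rwa [e] at this
  rw [h2]

/-- the difference in the class `b` -/
noncomputable def DD (S : Set ℕ) (X P q b : ℕ) : ℝ :=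
  count S X q b - (Nat.gcd q P / q : ℝ) * count S X (Nat.gcd q P) b

theorem DD_mod (S : Set ℕ) (X P q b : ℕ) : DD S X P q b = DD S X P q (b % q) := by
  unfold DD
  rw [count_mod S X q b, count_mod S X (Nat.gcd q P) b, count_mod S X (Nat.gcd q P) (b % q),
    Nat.mod_mod_of_dvd b (Nat.gcd_dvd_left q P)]

theorem sum_ng {q : ℕ} (hq : 1 ≤ q) (f : ℕ → ℝ) : ∑ b ∈ range q, f (ng q b % q) = ∑ b ∈ range q, f b := by
  apply sum_nbij' (fun b => ng q b % q) (fun b => ng q b % q)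
  · intro b _
    exact mem_range.2 (Nat.mod_lt _ hq)
  · intro b _
    exact mem_range.2 (Nat.mod_lt _ hq)
  · intro b hb
    rw [mem_range] at hb
    unfold ng
    rw [Nat.mod_eq_of_lt hb, Nat.mod_mod]
    rcases Nat.eq_zero_or_pos b with h0 | h0
    · subst h0
      simp
    · rw [Nat.mod_eq_of_lt (by omega : q - b < q), Nat.mod_eq_of_lt (by omega : q - (q - b) < q)]
      omega
  · intro b hb
    rw [mem_range] at hb
    unfold ng
    rw [Nat.mod_eq_of_lt hb, Nat.mod_mod]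
    rcases Nat.eq_zero_or_pos b with h0 | h0
    · subst h0
      simp
    · rw [Nat.mod_eq_of_lt (by omega : q - b < q), Nat.mod_eq_of_lt (by omega : q - (q - b) < q)]
      omega
  · intro b _
    rfl

theorem relT_NN (hG : Per Q G) (a : ℤ) (x : ℝ) (P B : ℕ) (_hB : 1 ≤ B) :
    relT (fun q b => NN G a x q (b : ℕ)) P B ≤ 4 * relative (SP G a) (XX a x) P B := by
  unfold relT relative
  rw [mul_sum]
  apply sum_le_sum
  intro q hq
  rw [mem_Ico] at hq
  have hq1 : 1 ≤ q := by omega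
  set g := Nat.gcd q P with hg
  have hg1 : 1 ≤ g := Nat.gcd_pos_of_pos_left P (by omega)
  have hgq : g ∣ q := Nat.gcd_dvd_left q P
  have h1 : ∀ b ∈ range q, (NN G a x q (b : ℕ) - (g / q : ℝ) * NN G a x g (b : ℕ)) ^ 2 ≤
      2 * DD (SP G a) (XX a x) P q b ^ 2 + 2 * DD (SP G a) (XX a x) P q (ng q b % q) ^ 2 := by
    intro b _
    rw [← DD_mod]
    rw [NN_split hG a x hq1 b, NN_split hG a x hg1 b]
    have e : count (SP G a) (XX a x) g (ng g b) = count (SP G a) (XX a x) g (ng q b) := by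
      rw [count_mod _ _ g (ng g b), count_mod _ _ g (ng q b)]
      congr 1
      have h2 := ng_dvd hg1 b
      have h3 := (Int.natCast_dvd_natCast.2 hgq).trans (ng_dvd hq1 b)
      have h4 := dvd_sub h2 h3
      have e2 : (ng g b : ℤ) + b - ((ng q b : ℤ) + b) = (ng g b : ℤ) - (ng q b : ℕ) := by ring
      rw [e2] at h4
      exact dvd_iff_mod.1 h4
    rw [e]
    have e3 : count (SP G a) (XX a x) q b + count (SP G a) (XX a x) q (ng q b) -
        (g / q : ℝ) * (count (SP G a) (XX a x) g b + count (SP G a) (XX a x) g (ng q b)) =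
        DD (SP G a) (XX a x) P q b + DD (SP G a) (XX a x) P q (ng q b) := by
      unfold DD
      rw [← hg]
      ring
    rw [e3]
    nlinarith [sq_nonneg (DD (SP G a) (XX a x) P q b - DD (SP G a) (XX a x) P q (ng q b))]
  refine (sum_le_sum h1).trans ?_
  rw [sum_add_distrib, ← mul_sum, ← mul_sum,
    sum_ng hq1 (fun b => DD (SP G a) (XX a x) P q b ^ 2)]
  have h2 : ∑ b ∈ range q, DD (SP G a) (XX a x) P q b ^ 2 = ∑ b ∈ range q,
      (count (SP G a) (XX a x) q b - (g / q : ℝ) * count (SP G a) (XX a x) g b) ^ 2 := rfl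
  rw [← h2]
  apply le_of_eq
  ring

end Pool.Agent.H90.LT
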