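import Pool.Agent.H90.LT.Mean
import Pool.Agent.H90.SK.Uni

/-! # The order of the main term -/

set_option autoImplicit false

namespace Pool.Agent.H90.LT

open Finset Filter Topology Polynomial Pool.Agent.N782.GN Pool.Agent.H90.SK Pool.Agent.Helper112 Pool.Agent.H92L
open Pool.Agent.Results.MP_0bf1d2_nt.EveryNLargeModuli (count relative count_mod expected expected_eq)

variable {Q : ℕ} {G : ℤ → ℤ → Prop}

theorem li_int {u v : ℝ} (hu : 2 ≤ u) (huv : u ≤ v) :
    IntervalIntegrable (fun t : ℝ => 1 / Real.log t) MeasureTheory.volume u v := by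
  apply ContinuousOn.intervalIntegrable
  rw [Set.uIcc_of_le huv]
  intro t ht
  have h1 : (0 : ℝ) < t := by linarith [ht.1]
  have h2 : Real.log t ≠ 0 := (Real.log_pos (by linarith [ht.1])).ne'
  exact (continuousAt_const.div (Real.continuousAt_log h1.ne') h2).continuousWithinAt

theorem li_lower {y : ℝ} (hy : 4 ≤ y) : y / (2 * Real.log y) ≤ ∫ t in (2 : ℝ)..y, 1 / Real.log t := by
  have hl : 0 < Real.log y := Real.log_pos (by linarith)
  have h1 : ∫ _t in (2 : ℝ)..y, 1 / Real.log y ≤ ∫ t in (2 : ℝ)..y, 1 / Real.log t := by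
    apply intervalIntegral.integral_mono_on (by linarith) (by simp) (li_int le_rfl (by linarith))
    intro t ht
    have h2 : (0 : ℝ) < Real.log t := Real.log_pos (by linarith [ht.1])
    exact one_div_le_one_div_of_le h2 (Real.log_le_log (by linarith [ht.1]) ht.2)
  rw [intervalIntegral.integral_const, smul_eq_mul] at h1
  refine le_trans ?_ h1
  rw [div_le_iff₀ (by positivity)]
  have : (y - 2) * (1 / Real.log y) * (2 * Real.log y) = 2 * (y - 2) := by
    field_simp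
  rw [this]
  linarith

theorem li_upper {y : ℝ} (hy : 4 ≤ y) : ∫ t in (2 : ℝ)..y, 1 / Real.log t ≤ 5 * (y / Real.log y) := by
  have hl : 0 < Real.log y := Real.log_pos (by linarith)
  set s := Real.sqrt y with hs
  have hs2 : 2 ≤ s := by
    rw [hs]
    apply Real.le_sqrt_of_sq_le
    linarith
  have hss : s * s = y := Real.mul_self_sqrt (by linarith)
  have hsy : s ≤ y := by nlinarith
  have hls : Real.log y = 2 * Real.log s := by
    rw [← hss, Real.log_mul (by linarith) (by linarith)]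
    ring
  have h2 : ∫ t in (2 : ℝ)..s, 1 / Real.log t ≤ ∫ _t in (2 : ℝ)..s, (3 / 2 : ℝ) := by
    apply intervalIntegral.integral_mono_on hs2 (li_int le_rfl hs2) (by simp)
    intro t ht
    have h3 : Real.log 2 ≤ Real.log t := Real.log_le_log (by norm_num) ht.1
    have h4 := Real.log_two_gt_d9
    rw [div_le_iff₀ (by linarith)]
    linarith
  have h3 : ∫ t in s..y, 1 / Real.log t ≤ ∫ _t in s..y, 1 / Real.log s := by
    apply intervalIntegral.integral_mono_on hsy (li_int hs2 hsy) (by simp)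
    intro t ht
    have h4 : 0 < Real.log s := Real.log_pos (by linarith)
    exact one_div_le_one_div_of_le h4 (Real.log_le_log (by linarith) ht.1)
  rw [intervalIntegral.integral_const, smul_eq_mul] at h2 h3
  rw [← intervalIntegral.integral_add_adjacent_intervals (li_int le_rfl hs2) (li_int hs2 hsy)]
  have h4 : s * Real.log y ≤ 2 * y := by
    have := Real.log_le_sub_one_of_pos (by linarith : (0 : ℝ) < s)
    rw [hls, ← hss]
    nlinarith
  have h5 : (s - 2) * (3 / 2) ≤ 3 * (y / Real.log y) := by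
    have : s ≤ 2 * (y / Real.log y) := by
      rw [← mul_div_assoc, le_div_iff₀ hl]
      exact h4
    linarith
  have h6 : (y - s) * (1 / Real.log s) ≤ 2 * (y / Real.log y) := by
    have e : Real.log s = Real.log y / 2 := by rw [hls]; ring
    rw [e]
    have e2 : (y - s) * (1 / (Real.log y / 2)) = 2 * ((y - s) / Real.log y) := by field_simp
    rw [e2]
    apply mul_le_mul_of_nonneg_left _ (by norm_num)
    apply div_le_div_of_nonneg_right _ hl.le
    linarith
  linarith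

/-- the size of `X` -/
theorem XX_bounds {ε : ℝ} (hε : 0 < ε) : ∃ a₀ : ℝ, 1 ≤ a₀ ∧ ∀ a : ℤ, a₀ ≤ |(a : ℝ)| → ∀ x : ℝ, |(a : ℝ)| ^ (2 + ε) ≤ x →
    4 * |(a : ℝ)| ≤ √x ∧ √x / 2 ≤ XX a x ∧ (XX a x : ℝ) ≤ √x ∧ |(a : ℝ)| ≤ XX a x := by
  refine ⟨max 1 ((16 : ℝ) ^ (1 / ε)), le_max_left _ _, fun a ha x hx => ?_⟩
  have ha1 : 1 ≤ |(a : ℝ)| := (le_max_left _ _).trans ha
  have ha2 : (16 : ℝ) ^ (1 / ε) ≤ |(a : ℝ)| := (le_max_right _ _).trans ha
  set t := |(a : ℝ)| with ht
  have h1 : (16 : ℝ) ≤ t ^ ε := by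
    calc (16 : ℝ) = ((16 : ℝ) ^ (1 / ε)) ^ ε := by
          rw [← Real.rpow_mul (by norm_num), one_div_mul_cancel hε.ne', Real.rpow_one]
      _ ≤ t ^ ε := Real.rpow_le_rpow (by positivity) ha2 hε.le
  have h2 : t ^ (2 + ε) = t ^ 2 * t ^ ε := by
    rw [Real.rpow_add (by linarith)]
    norm_num
  have h3 : 16 * t ^ 2 ≤ x := by
    rw [h2] at hx
    nlinarith [sq_nonneg t]
  have hx0 : 0 ≤ x := by nlinarith [sq_nonneg t]
  have h4 : 4 * t ≤ √x := by
    apply Real.le_sqrt_of_sq_le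
    nlinarith
  have h5 : (a : ℝ) ^ 2 = t ^ 2 := by rw [ht, sq_abs]
  have hs0 : 0 ≤ √x := Real.sqrt_nonneg x
  have hsx : √x ^ 2 = x := Real.sq_sqrt hx0
  have h6 : 3 / 4 * √x ≤ √(x - (a : ℝ) ^ 2) := by
    apply Real.le_sqrt_of_sq_le
    rw [h5]
    nlinarith
  have h7 : √(x - (a : ℝ) ^ 2) ≤ √x := Real.sqrt_le_sqrt (by nlinarith [sq_nonneg (a : ℝ)])
  have h8 := Nat.lt_floor_add_one (√(x - (a : ℝ) ^ 2))
  have h9 := Nat.floor_le (Real.sqrt_nonneg (x - (a : ℝ) ^ 2))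
  unfold XX
  refine ⟨h4, by linarith, by linarith, by linarith⟩

theorem pp_cmp (hQ : 1 ≤ Q) (a : ℤ) (X : ℕ) :
    (1 / 2 : ℝ) ^ Q * pp ((Q : ℤ) * a) X ≤ pp a X ∧ pp a X ≤ (3 / 2 : ℝ) ^ Q * pp ((Q : ℤ) * a) X := by
  classical
  rw [pp_eq, pp_eq]
  set A := (Icc 3 X).filter (fun p : ℕ => p.Prime ∧ ¬ (p : ℤ) ∣ a) with hA
  set B := (Icc 3 X).filter (fun p : ℕ => p.Prime ∧ ¬ (p : ℤ) ∣ (Q : ℤ) * a) with hB
  have hsub : B ⊆ A := by
    intro p hp
    rw [hB, mem_filter] at hp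
    rw [hA, mem_filter]
    exact ⟨hp.1, hp.2.1, fun h => hp.2.2 (h.mul_left _)⟩
  rw [← prod_sdiff hsub]
  have hpos : 0 < ∏ p ∈ B, fc p := by
    apply prod_pos
    intro p hp
    rw [hB, mem_filter, mem_Icc] at hp
    exact fc_pos hp.2.1 (by omega)
  have hcard : (A \ B).card ≤ Q := by
    have h1 : A \ B ⊆ Icc 1 Q := by
      intro p hp
      rw [Finset.mem_sdiff, hA, hB, mem_filter, mem_filter] at hp
      obtain ⟨⟨h1, h2, h3⟩, h4⟩ := hp
      have hpi : Prime (p : ℤ) := Nat.prime_iff_prime_int.1 h2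
      have h5 : (p : ℤ) ∣ (Q : ℤ) * a := by
        by_contra h
        exact h4 ⟨h1, h2, h⟩
      rcases hpi.dvd_or_dvd h5 with h6 | h6
      · rw [mem_Icc]
        exact ⟨h2.pos, Nat.le_of_dvd (by omega) (Int.natCast_dvd_natCast.1 h6)⟩
      · exact absurd h6 h3
    have := card_le_card h1
    rwa [Nat.card_Icc, Nat.add_sub_cancel] at this
  have hfb : ∀ p ∈ A \ B, 1 / 2 ≤ fc p ∧ fc p ≤ 3 / 2 := by
    intro p hp
    rw [Finset.mem_sdiff, hA, mem_filter, mem_Icc] at hp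
    exact fc_bounds hp.1.2.1 (by omega)
  have hlow : (1 / 2 : ℝ) ^ Q ≤ ∏ p ∈ A \ B, fc p := by
    calc (1 / 2 : ℝ) ^ Q ≤ (1 / 2 : ℝ) ^ (A \ B).card := pow_le_pow_of_le_one (by norm_num) (by norm_num) hcard
      _ = ∏ p ∈ A \ B, (1 / 2 : ℝ) := by rw [prod_const]
      _ ≤ _ := prod_le_prod (fun _ _ => by norm_num) (fun p hp => (hfb p hp).1)
  have hup : ∏ p ∈ A \ B, fc p ≤ (3 / 2 : ℝ) ^ Q := by
    calc ∏ p ∈ A \ B, fc p ≤ ∏ p ∈ A \ B, (3 / 2 : ℝ) :=
          prod_le_prod (fun p hp => by linarith [(hfb p hp).1]) (fun p hp => (hfb p hp).2)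
      _ = (3 / 2 : ℝ) ^ (A \ B).card := by rw [prod_const]
      _ ≤ _ := pow_le_pow_right₀ (by norm_num) hcard
  exact ⟨mul_le_mul_of_nonneg_right hlow hpos.le, mul_le_mul_of_nonneg_right hup hpos.le⟩

theorem expected_pol (a : ℤ) (X : ℕ) : expected (pol a) X = X * (Pool.Agent.H318R2.Cr.V X * pp a X) := by
  rw [expected_eq, VV_pol]

/-- the order of the main term -/
theorem order_cmp (hQ : 1 ≤ Q) {ε : ℝ} (hε : 0 < ε) : ∃ c₁ c₂ a₀ : ℝ, 0 < c₁ ∧ 0 < c₂ ∧ 1 ≤ a₀ ∧
    ∀ (G : ℤ → ℤ → Prop) (a : ℤ), a₀ ≤ |(a : ℝ)| → 0 < (cl Q G a).card → ∀ x : ℝ, |(a : ℝ)| ^ (2 + ε) ≤ x →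
      c₁ * (C0 Q G a * Li x) ≤ expected (pol a) (XX a x) ∧ expected (pol a) (XX a x) ≤ c₂ * (C0 Q G a * Li x) := by
  classical
  obtain ⟨b₁, b₂, hb1, hb12, hV⟩ := Pool.Agent.H318R2.Cr.cz_bounds
  obtain ⟨X₁, hX₁, hSS⟩ := SS_tail
  obtain ⟨a₁, ha₁, hXX⟩ := XX_bounds hε
  have hb2 : 0 < b₂ := by linarith
  have hQ0 : (0 : ℝ) < Q := by exact_mod_cast hQ
  refine ⟨b₁ / (20 * Q * 2 ^ Q), 8 * b₂ * (3 / 2) ^ Q * Q, max a₁ (max X₁ (max Q 4)), by positivity, by positivity,
    ha₁.trans (le_max_left _ _), fun G a ha hcl x hx => ?_⟩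
  have ha1 : a₁ ≤ |(a : ℝ)| := (le_max_left _ _).trans ha
  have ha2 : (X₁ : ℝ) ≤ |(a : ℝ)| := ((le_max_left _ _).trans (le_max_right _ _)).trans ha
  have ha3 : (Q : ℝ) ≤ |(a : ℝ)| :=
    (((le_max_left _ _).trans (le_max_right _ _)).trans (le_max_right _ _)).trans ha
  have ha4 : (4 : ℝ) ≤ |(a : ℝ)| :=
    (((le_max_right _ _).trans (le_max_right _ _)).trans (le_max_right _ _)).trans ha
  obtain ⟨h1, h2, h3, h4⟩ := hXX a ha1 x hx
  set X := XX a x with hX
  set y := √x with hy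
  have hane : a ≠ 0 := by
    rintro rfl
    simp at ha4
    linarith
  have hy16 : 16 ≤ y := by linarith
  have hX1 : X₁ ≤ X := by exact_mod_cast ha2.trans h4
  have hXQ : Q ≤ X := by exact_mod_cast ha3.trans h4
  have hX2 : 2 ≤ X := by omega
  have hX0 : (0 : ℝ) < X := by exact_mod_cast (by omega : 0 < X)
  have hQa : (Q : ℤ) * a ≠ 0 := mul_ne_zero (by exact_mod_cast (by omega : Q ≠ 0)) hane
  have hnp : ∀ p : ℕ, p.Prime → X < p → ¬ (p : ℤ) ∣ (Q : ℤ) * a := by
    intro p hp hXp hd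
    have hpi : Prime (p : ℤ) := Nat.prime_iff_prime_int.1 hp
    rcases hpi.dvd_or_dvd hd with h5 | h5
    · have := Nat.le_of_dvd (by omega) (Int.natCast_dvd_natCast.1 h5)
      omega
    · have h6 := Nat.le_of_dvd (Int.natAbs_pos.2 hane) (Int.natCast_dvd.1 h5)
      have h7 : ((a.natAbs : ℕ) : ℝ) = |(a : ℝ)| := by
        rw [Nat.cast_natAbs]
        push_cast
        rfl
      have h8 : (a.natAbs : ℝ) ≤ X := by rw [h7]; exact h4
      have h9 : a.natAbs ≤ X := by exact_mod_cast h8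
      omega
  obtain ⟨s1, s2⟩ := hSS X hX1 _ hQa hnp
  have hSpos := (c_ssl _ hQa).2
  obtain ⟨p1, p2⟩ := pp_cmp hQ a X
  have hpp := pp_pos a X
  have hppQ := pp_pos ((Q : ℤ) * a) X
  obtain ⟨v1, v2⟩ := hV X hX2
  have hlX : 0 < Real.log X := Real.log_pos (by exact_mod_cast (by omega : 1 < X))
  have hly : 0 < Real.log y := Real.log_pos (by linarith)
  have hXy : Real.log X ≤ Real.log y := Real.log_le_log hX0 h3
  have hyX : Real.log y ≤ 2 * Real.log X := by
    have e1 : Real.log y ≤ Real.log ((X : ℝ) ^ 2) := by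
      apply Real.log_le_log (by linarith)
      nlinarith
    rwa [Real.log_pow] at e1
  have hV0 : 0 < Pool.Agent.H318R2.Cr.V X := by
    by_contra hcon
    have : Pool.Agent.H318R2.Cr.V X * Real.log X ≤ 0 := mul_nonpos_of_nonpos_of_nonneg (not_lt.1 hcon) hlX.le
    linarith
  have hL1 := li_lower (by linarith : 4 ≤ y)
  have hL2 := li_upper (by linarith : 4 ≤ y)
  have hLi : (∫ t in (2 : ℝ)..y, 1 / Real.log t) = Li x := rfl
  rw [hLi] at hL1 hL2
  have hLpos : 0 < Li x := lt_of_lt_of_le (by positivity) hL1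
  have hφ1 : (1 : ℝ) ≤ Nat.totient Q := by exact_mod_cast Nat.totient_pos.2 (by omega)
  have hφ2 : (Nat.totient Q : ℝ) ≤ Q := by exact_mod_cast Nat.totient_le Q
  have hc1 : (1 : ℝ) ≤ (cl Q G a).card := by exact_mod_cast hcl
  have hc2 : ((cl Q G a).card : ℝ) ≤ Q := by
    have : (cl Q G a).card ≤ Q := by
      unfold cl
      refine (card_filter_le _ _).trans ?_
      simp
    exact_mod_cast this
  have hC1 : SS ((Q : ℤ) * a) / Q ≤ C0 Q G a := by
    unfold C0
    rw [div_mul_eq_mul_div, div_le_div_iff₀ hQ0 (by linarith)]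
    nlinarith [mul_le_mul hφ2 hc1 (by norm_num) hQ0.le, mul_pos hQ0 hSpos,
      mul_le_mul_of_nonneg_left hφ2 hSpos.le, mul_le_mul_of_nonneg_left hc1 (mul_pos hQ0 hSpos).le]
  have hC2 : C0 Q G a ≤ Q * SS ((Q : ℤ) * a) := by
    unfold C0
    apply mul_le_mul_of_nonneg_right _ hSpos.le
    rw [div_le_iff₀ (by linarith)]
    nlinarith
  have hC0 : 0 < C0 Q G a := lt_of_lt_of_le (by positivity) hC1
  rw [expected_pol]
  constructor
  · -- the lower bound for the expected order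
    have e1 : C0 Q G a * Li x ≤ (Q * (2 * pp ((Q : ℤ) * a) X)) * (5 * (y / Real.log y)) := by
      apply mul_le_mul _ hL2 hLpos.le (by positivity)
      refine hC2.trans ?_
      exact mul_le_mul_of_nonneg_left s2 hQ0.le
    have e2 : pp ((Q : ℤ) * a) X ≤ 2 ^ Q * pp a X := by
      have : (2 : ℝ) ^ Q * ((1 / 2 : ℝ) ^ Q * pp ((Q : ℤ) * a) X) = pp ((Q : ℤ) * a) X := by
        rw [← mul_assoc, ← mul_pow]
        norm_num
      rw [← this]
      exact mul_le_mul_of_nonneg_left p1 (by positivity)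
    have e3 : y / Real.log y ≤ 2 * (X * Pool.Agent.H318R2.Cr.V X) / b₁ := by
      rw [div_le_div_iff₀ hly hb1]
      have e4 : b₁ ≤ Pool.Agent.H318R2.Cr.V X * Real.log y :=
        v1.trans (mul_le_mul_of_nonneg_left hXy hV0.le)
      calc y * b₁ ≤ (2 * X) * (Pool.Agent.H318R2.Cr.V X * Real.log y) :=
            mul_le_mul (by linarith) e4 hb1.le (by positivity)
        _ = _ := by ring
    have e5 : C0 Q G a * Li x ≤ (Q * (2 * (2 ^ Q * pp a X))) * (5 * (2 * (X * Pool.Agent.H318R2.Cr.V X) / b₁)) := by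
      refine e1.trans ?_
      apply mul_le_mul _ _ (by positivity) (by positivity)
      · exact mul_le_mul_of_nonneg_left (mul_le_mul_of_nonneg_left e2 (by norm_num)) hQ0.le
      · exact mul_le_mul_of_nonneg_left e3 (by norm_num)
    calc b₁ / (20 * Q * 2 ^ Q) * (C0 Q G a * Li x) ≤ b₁ / (20 * Q * 2 ^ Q) *
          ((Q * (2 * (2 ^ Q * pp a X))) * (5 * (2 * (X * Pool.Agent.H318R2.Cr.V X) / b₁))) :=
          mul_le_mul_of_nonneg_left e5 (by positivity)
      _ = X * (Pool.Agent.H318R2.Cr.V X * pp a X) := by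
          field_simp
          ring
  · -- the upper bound
    have e1 : (X : ℝ) * (Pool.Agent.H318R2.Cr.V X * pp a X) ≤ y * ((b₂ / Real.log X) * ((3 / 2 : ℝ) ^ Q * (2 * SS ((Q : ℤ) * a)))) := by
      apply mul_le_mul h3 _ (by positivity) (by positivity)
      apply mul_le_mul _ _ hpp.le (by positivity)
      · rw [le_div_iff₀ hlX]
        exact v2
      · refine p2.trans ?_
        apply mul_le_mul_of_nonneg_left _ (by positivity)
        linarith
    have e2 : b₂ / Real.log X ≤ 2 * b₂ / Real.log y := by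
      rw [div_le_div_iff₀ hlX hly]
      nlinarith
    have e3 : SS ((Q : ℤ) * a) ≤ Q * C0 Q G a := by
      rw [div_le_iff₀ hQ0] at hC1
      linarith
    have e4 : y / Real.log y ≤ 2 * Li x := by
      have : y / (2 * Real.log y) = y / Real.log y / 2 := by
        rw [div_div, mul_comm]
      rw [this] at hL1
      linarith
    calc (X : ℝ) * (Pool.Agent.H318R2.Cr.V X * pp a X) ≤
          y * ((b₂ / Real.log X) * ((3 / 2 : ℝ) ^ Q * (2 * SS ((Q : ℤ) * a)))) := e1
      _ ≤ y * ((2 * b₂ / Real.log y) * ((3 / 2 : ℝ) ^ Q * (2 * (Q * C0 Q G a)))) := by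
          apply mul_le_mul_of_nonneg_left _ (by positivity)
          apply mul_le_mul e2 _ (by positivity) (by positivity)
          apply mul_le_mul_of_nonneg_left _ (by positivity)
          linarith
      _ = (y / Real.log y) * (4 * b₂ * (3 / 2 : ℝ) ^ Q * Q * C0 Q G a) := by ring
      _ ≤ (2 * Li x) * (4 * b₂ * (3 / 2 : ℝ) ^ Q * Q * C0 Q G a) :=
          mul_le_mul_of_nonneg_right e4 (by positivity)
      _ = _ := by ring

/-- a lower bound for the expected order -/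
theorem order_low {ε : ℝ} (hε : 0 < ε) : ∃ c a₀ : ℝ, 0 < c ∧ 1 ≤ a₀ ∧
    ∀ a : ℤ, a₀ ≤ |(a : ℝ)| → ∀ x : ℝ, |(a : ℝ)| ^ (2 + ε) ≤ x →
      c * (√x / (Real.log x) ^ 4) ≤ expected (pol a) (XX a x) := by
  obtain ⟨c, hc, h⟩ := VV_ge 2 (by norm_num)
  obtain ⟨a₁, ha₁, hXX⟩ := XX_bounds hε
  refine ⟨c / 512, max a₁ 4, by positivity, ha₁.trans (le_max_left _ _), fun a ha x hx => ?_⟩
  have ha1 : a₁ ≤ |(a : ℝ)| := (le_max_left _ _).trans ha
  have ha4 : (4 : ℝ) ≤ |(a : ℝ)| := (le_max_right _ _).trans ha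
  obtain ⟨h1, h2, h3, h4⟩ := hXX a ha1 x hx
  set X := XX a x with hX
  set y := √x with hy
  have hy16 : 16 ≤ y := by linarith
  have hx0 : 0 ≤ x := by
    by_contra hcon
    have := Real.sqrt_eq_zero_of_nonpos (by linarith : x ≤ 0)
    rw [← hy] at this
    linarith
  have hyy : y ^ 2 = x := Real.sq_sqrt hx0
  have hX0 : (0 : ℝ) < X := by linarith
  have hX1 : 1 ≤ X := by exact_mod_cast hX0
  have hlx : 1 ≤ Real.log x := by
    rw [Real.le_log_iff_exp_le (by nlinarith)]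
    have := Real.exp_one_lt_d9
    nlinarith
  have e1 := h (omP (pol a)) (adm_pol a) (Nat.log 2 X + 1) X (by omega) (Nat.lt_pow_succ_log_self (by norm_num) X).le
  have e2 : ((Nat.log 2 X + 1 : ℕ) : ℝ) + 1 ≤ 4 * Real.log x := by
    have e3 := Real.natLog_le_logb X 2
    have e4 : Real.logb (2 : ℕ) X ≤ 2 * Real.log x := by
      unfold Real.logb
      rw [div_le_iff₀ (by push_cast; exact Real.log_pos (by norm_num))]
      have e5 : Real.log X ≤ Real.log x := by
        apply Real.log_le_log hX0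
        nlinarith
      have e6 := Real.log_two_gt_d9
      push_cast
      nlinarith
    push_cast
    linarith
  rw [expected_eq]
  have e7 : c / (4 * Real.log x) ^ 4 ≤ VV (omP (pol a)) X := by
    refine le_trans ?_ e1
    apply div_le_div_of_nonneg_left hc.le (by positivity)
    exact pow_le_pow_left₀ (by positivity) e2 _
  calc c / 512 * (y / Real.log x ^ 4) = (y / 2) * (c / (4 * Real.log x) ^ 4) := by
        rw [mul_pow]
        field_simp
        norm_num
    _ ≤ X * VV (omP (pol a)) X := mul_le_mul h2 e7 (by positivity) hX0.le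

end Pool.Agent.H90.LT
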