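import Pool.Agent.H92L.GenC
import Pool.Agent.H90.SK.Ex
import Pool.Agent.H90.SK.Pol
import Pool.Agent.H90.GB.Pair

/-! # The singular series of `a² + m²` and the sieve product -/

set_option autoImplicit false

namespace Pool.Agent.H90.LT

open Finset Filter Topology Polynomial Pool.Agent.N782.GN Pool.Agent.H90.SK Pool.Agent.Helper112

/-- the factor -/
noncomputable def fc (p : ℕ) : ℝ := 1 - ((ZMod.χ₄ (p : ZMod 4) : ℤ) : ℝ) / ((p : ℝ) - 1)

theorem pp_eq (n : ℤ) (z : ℕ) :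
    pp n z = ∏ p ∈ (Icc 3 z).filter (fun p : ℕ => p.Prime ∧ ¬ (p : ℤ) ∣ n), fc p := rfl

theorem chi_abs (p : ℕ) : |((ZMod.χ₄ (p : ZMod 4) : ℤ) : ℝ)| ≤ 1 := by
  have : |(ZMod.χ₄ (p : ZMod 4) : ℤ)| ≤ 1 := by
    rw [ZMod.χ₄_nat_eq_if_mod_four]
    split_ifs <;> norm_num
  exact_mod_cast this

theorem fc_bounds {p : ℕ} (hp : p.Prime) (h2 : p ≠ 2) : 1 / 2 ≤ fc p ∧ fc p ≤ 3 / 2 := by
  have h3 : 3 ≤ p := by
    have := hp.two_le
    omega
  have h3' : (3 : ℝ) ≤ p := by exact_mod_cast h3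
  have h4 := abs_le.1 (chi_abs p)
  unfold fc
  have h5 : (0 : ℝ) < (p : ℝ) - 1 := by linarith
  have h6 : ((ZMod.χ₄ (p : ZMod 4) : ℤ) : ℝ) / ((p : ℝ) - 1) ≤ 1 / 2 := by
    rw [div_le_div_iff₀ h5 (by norm_num)]
    linarith
  have h7 : -(1 / 2) ≤ ((ZMod.χ₄ (p : ZMod 4) : ℤ) : ℝ) / ((p : ℝ) - 1) := by
    rw [le_div_iff₀ h5]
    linarith
  constructor <;> linarith

theorem fc_pos {p : ℕ} (hp : p.Prime) (h2 : p ≠ 2) : 0 < fc p := by
  have := (fc_bounds hp h2).1
  linarith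

theorem pp_pos (n : ℤ) (z : ℕ) : 0 < pp n z := by
  rw [pp_eq]
  apply prod_pos
  intro p hp
  rw [mem_filter, mem_Icc] at hp
  exact fc_pos hp.2.1 (by omega)

/-- changing `n` -/
theorem SS_split {n : ℤ} (hn : n ≠ 0) {q : ℕ} (hq : 1 ≤ q) :
    SS n = SS (n * q) * ∏ p ∈ q.primeFactors.filter (fun p : ℕ => p ≠ 2 ∧ ¬ (p : ℤ) ∣ n), fc p := by
  classical
  have hnq : n * q ≠ 0 := mul_ne_zero hn (by exact_mod_cast (by omega : q ≠ 0))
  have h1 := (c_ssl n hn).1
  have h2 := (c_ssl (n * q) hnq).1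
  set F := ∏ p ∈ q.primeFactors.filter (fun p : ℕ => p ≠ 2 ∧ ¬ (p : ℤ) ∣ n), fc p with hF
  have h3 : Tendsto (fun z => pp (n * q) z * F) atTop (𝓝 (SS (n * q) * F)) := h2.mul_const F
  have hev : (fun z => pp (n * q) z * F) =ᶠ[atTop] pp n := by
    filter_upwards [eventually_ge_atTop q] with z hz
    rw [hF, pp_eq, pp_eq, ← prod_union]
    · apply prod_congr _ (fun _ _ => rfl)
      ext p
      rw [mem_union, mem_filter, mem_filter, mem_filter, mem_Icc, Nat.mem_primeFactors]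
      have key : p.Prime → ((p : ℤ) ∣ n * q ↔ (p : ℤ) ∣ n ∨ p ∣ q) := by
        intro hp
        have hpz : Prime (p : ℤ) := Nat.prime_iff_prime_int.1 hp
        rw [hpz.dvd_mul, Int.natCast_dvd_natCast]
      constructor
      · rintro (⟨⟨h4, h5⟩, h6, h7⟩ | ⟨⟨h4, h5, h6⟩, h7, h8⟩)
        · rw [key h6] at h7
          exact ⟨⟨h4, h5⟩, h6, fun h => h7 (Or.inl h)⟩
        · have := h4.two_le
          have h9 : p ≤ q := Nat.le_of_dvd (by omega) h5
          exact ⟨⟨by omega, by omega⟩, h4, h8⟩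
      · rintro ⟨⟨h4, h5⟩, h6, h7⟩
        by_cases h8 : p ∣ q
        · right
          exact ⟨⟨h6, h8, by omega⟩, by omega, h7⟩
        · left
          refine ⟨⟨h4, h5⟩, h6, ?_⟩
          rw [key h6]
          tauto
    · rw [disjoint_left]
      intro p hp1 hp2
      rw [mem_filter] at hp1 hp2
      apply hp1.2.2
      exact Dvd.dvd.mul_left (Int.natCast_dvd_natCast.2 (Nat.dvd_of_mem_primeFactors hp2.1)) n
  exact tendsto_nhds_unique h1 (h3.congr' hev)

/-- the tail of the singular series -/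
theorem SS_tail : ∃ X₁ : ℕ, 3 ≤ X₁ ∧ ∀ X : ℕ, X₁ ≤ X → ∀ n : ℤ, n ≠ 0 → (∀ p : ℕ, p.Prime → X < p → ¬ (p : ℤ) ∣ n) →
    1 / 2 * pp n X ≤ SS n ∧ SS n ≤ 2 * pp n X := by
  classical
  obtain ⟨h1, h2⟩ := c_ssl 1 one_ne_zero
  have h3 : ∀ᶠ z in atTop, |pp 1 z - SS 1| < SS 1 / 5 := by
    have := (Metric.tendsto_atTop.1 h1) (SS 1 / 5) (by positivity)
    obtain ⟨N, hN⟩ := this
    filter_upwards [eventually_ge_atTop N] with z hz
    have := hN z hz
    rwa [Real.dist_eq] at this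
  obtain ⟨N, hN⟩ := eventually_atTop.1 h3
  refine ⟨max N 3, le_max_right _ _, fun X hX n hn hdiv => ?_⟩
  have hXN : N ≤ X := (le_max_left _ _).trans hX
  have hX3 : 3 ≤ X := (le_max_right _ _).trans hX
  have hfac : ∀ m : ℤ, (∀ p : ℕ, p.Prime → X < p → ¬ (p : ℤ) ∣ m) → ∀ z, X ≤ z →
      pp m z = pp m X * ∏ p ∈ (Ioc X z).filter Nat.Prime, fc p := by
    intro m hm z hz
    rw [pp_eq, pp_eq, ← prod_union]
    · apply prod_congr _ (fun _ _ => rfl)
      ext p
      rw [mem_union, mem_filter, mem_filter, mem_filter, mem_Icc, mem_Icc, mem_Ioc]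
      constructor
      · rintro ⟨⟨h4, h5⟩, h6, h7⟩
        by_cases h8 : p ≤ X
        · exact Or.inl ⟨⟨h4, h8⟩, h6, h7⟩
        · exact Or.inr ⟨⟨by omega, h5⟩, h6⟩
      · rintro (⟨⟨h4, h5⟩, h6, h7⟩ | ⟨⟨h4, h5⟩, h6⟩)
        · exact ⟨⟨h4, by omega⟩, h6, h7⟩
        · exact ⟨⟨by omega, h5⟩, h6, hm p h6 h4⟩
    · rw [disjoint_left]
      intro p hp1 hp2
      rw [mem_filter, mem_Icc] at hp1
      rw [mem_filter, mem_Ioc] at hp2
      omega
  have h1div : ∀ p : ℕ, p.Prime → X < p → ¬ (p : ℤ) ∣ 1 := by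
    intro p hp _ hd
    have : p ∣ 1 := by exact_mod_cast hd
    exact hp.one_lt.ne' (Nat.dvd_one.1 this)
  have hT : ∀ z, X ≤ z → 1 / 2 ≤ ∏ p ∈ (Ioc X z).filter Nat.Prime, fc p ∧ ∏ p ∈ (Ioc X z).filter Nat.Prime, fc p ≤ 2 := by
    intro z hz
    have e1 := hfac 1 h1div z hz
    have e2 := abs_lt.1 (hN z (by omega))
    have e3 := abs_lt.1 (hN X hXN)
    have e4 := pp_pos 1 X
    obtain ⟨T, hT⟩ : ∃ T, T = ∏ p ∈ (Ioc X z).filter Nat.Prime, fc p := ⟨_, rfl⟩
    rw [← hT] at e1 ⊢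
    have e5 : T = pp 1 z / pp 1 X := by
      rw [e1]
      field_simp
    constructor
    · rw [e5, le_div_iff₀ e4]
      linarith
    · rw [e5, div_le_iff₀ e4]
      linarith
  have hlim := (c_ssl n hn).1
  have hpn := pp_pos n X
  constructor
  · apply ge_of_tendsto hlim
    filter_upwards [eventually_ge_atTop X] with z hz
    rw [hfac n hdiv z hz]
    have := (hT z hz).1
    nlinarith
  · apply le_of_tendsto hlim
    filter_upwards [eventually_ge_atTop X] with z hz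
    rw [hfac n hdiv z hz]
    have := (hT z hz).2
    nlinarith

/-! ### the polynomial -/

/-- `X² + a²` -/
noncomputable def pol (a : ℤ) : Fin 1 → ℤ[X] := fun _ => X ^ 2 + C (a ^ 2)

theorem pol_eval (a : ℤ) (i : Fin 1) (n : ℤ) : (pol a i).eval n = n ^ 2 + a ^ 2 := by simp [pol]

theorem pol_deg (a : ℤ) (i : Fin 1) : (pol a i).natDegree = 2 := by
  unfold pol
  rw [natDegree_add_C]
  exact natDegree_X_pow 2

theorem pol_sum (a : ℤ) : ∑ i, (pol a i).natDegree ≤ 2 := by simp [pol_deg]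

theorem mem_om (a : ℤ) {p : ℕ} (hp : 0 < p) (n : ℕ) : n % p ∈ omP (pol a) p ↔ (p : ℤ) ∣ (n : ℤ) ^ 2 + a ^ 2 := by
  rw [mem_omP _ hp]
  constructor
  · rintro ⟨i, hi⟩
    rwa [pol_eval] at hi
  · intro h
    exact ⟨0, by rwa [pol_eval]⟩

theorem pol_nofix (a : ℤ) : NoFix (pol a) := by
  intro p hp
  by_cases h : (p : ℤ) ∣ a ^ 2
  · refine ⟨1, fun i hi => ?_⟩
    rw [pol_eval] at hi
    have h1 := (dvd_add_left h).1 hi
    have h2 : (p : ℤ) ∣ 1 := by simpa using h1
    have : p ∣ 1 := by exact_mod_cast h2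
    exact hp.one_lt.ne' (Nat.dvd_one.1 this)
  · refine ⟨0, fun i hi => ?_⟩
    rw [pol_eval] at hi
    apply h
    simpa using hi

theorem adm_pol (a : ℤ) : Adm 2 (omP (pol a)) := adm_omP _ (pol_nofix a) (pol_sum a)

/-- the number of roots -/
theorem card_om (a : ℤ) {p : ℕ} (hp : p.Prime) :
    ((omP (pol a) p).card : ℤ) = if p ≠ 2 ∧ ¬ (p : ℤ) ∣ a then 1 + ZMod.χ₄ (p : ZMod 4) else 1 := by
  classical
  have : Fact p.Prime := ⟨hp⟩
  have hpi : Prime (p : ℤ) := Nat.prime_iff_prime_int.1 hp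
  have hset : omP (pol a) p = (range p).filter (fun n : ℕ => (p : ℤ) ∣ (n : ℤ) ^ 2 + a ^ 2) := by
    ext n
    rw [mem_filter, mem_range]
    constructor
    · intro h
      have h1 : n < p := mem_range.1 (((adm_pol a) p hp).1 h)
      have h2 := mem_om a hp.pos n
      rw [Nat.mod_eq_of_lt h1] at h2
      exact ⟨h1, h2.1 h⟩
    · rintro ⟨h1, h2⟩
      have h3 := mem_om a hp.pos n
      rw [Nat.mod_eq_of_lt h1] at h3
      exact h3.2 h2
  split_ifs with h
  · obtain ⟨h2, ha⟩ := h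
    have h1 := legendreSym.card_sqrts p h2 (-(a ^ 2))
    have h3 : legendreSym p (-(a ^ 2)) = ZMod.χ₄ (p : ZMod 4) := by
      have e : -(a ^ 2) = (-1) * (a ^ 2) := by ring
      rw [e, legendreSym.mul, legendreSym.at_neg_one h2, legendreSym.sq_one', mul_one]
      intro h4
      apply ha
      rwa [ZMod.intCast_zmod_eq_zero_iff_dvd] at h4
    rw [h3] at h1
    rw [add_comm, ← h1, hset]
    norm_cast
    apply card_bij (fun (n : ℕ) _ => (n : ZMod p))
    · intro n hn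
      rw [mem_filter] at hn
      rw [Set.mem_toFinset, Set.mem_ofPred_eq]
      have h4 := (ZMod.intCast_zmod_eq_zero_iff_dvd _ p).2 hn.2
      push_cast at h4 ⊢
      linear_combination h4
    · intro n hn m hm hnm
      rw [mem_filter, mem_range] at hn hm
      rw [ZMod.natCast_eq_natCast_iff] at hnm
      exact hnm.eq_of_lt_of_lt hn.1 hm.1
    · intro y hy
      rw [Set.mem_toFinset, Set.mem_ofPred_eq] at hy
      refine ⟨y.val, ?_, ZMod.natCast_zmod_val y⟩
      rw [mem_filter, mem_range]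
      refine ⟨ZMod.val_lt y, ?_⟩
      rw [← ZMod.intCast_zmod_eq_zero_iff_dvd]
      push_cast
      rw [ZMod.natCast_zmod_val, hy]
      push_cast
      ring
  · rw [hset]
    norm_cast
    rw [card_eq_one]
    by_cases h2 : p = 2
    · subst h2
      by_cases ha : (2 : ℤ) ∣ a
      · refine ⟨0, ?_⟩
        ext n
        rw [mem_filter, mem_range, mem_singleton]
        obtain ⟨c, hc⟩ := ha
        constructor
        · rintro ⟨h4, h5⟩
          interval_cases n
          · rfl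
          · exfalso
            rw [hc] at h5
            obtain ⟨d, hd⟩ := h5
            push_cast at hd
            ring_nf at hd
            omega
        · rintro rfl
          refine ⟨by norm_num, ?_⟩
          rw [hc]
          exact ⟨2 * c ^ 2, by push_cast; ring⟩
      · refine ⟨1, ?_⟩
        obtain ⟨c, hc⟩ : ∃ c : ℤ, a = 2 * c + 1 := ⟨a / 2, by omega⟩
        ext n
        rw [mem_filter, mem_range, mem_singleton]
        constructor
        · rintro ⟨h4, h5⟩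
          interval_cases n
          · exfalso
            rw [hc] at h5
            obtain ⟨d, hd⟩ := h5
            push_cast at hd
            ring_nf at hd
            omega
          · rfl
        · rintro rfl
          refine ⟨by norm_num, ?_⟩
          rw [hc]
          exact ⟨2 * c ^ 2 + 2 * c + 1, by push_cast; ring⟩
    · have ha : (p : ℤ) ∣ a := by
        by_contra hcon
        exact h ⟨h2, hcon⟩
      refine ⟨0, ?_⟩
      ext n
      rw [mem_filter, mem_range, mem_singleton]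
      have ha2 : (p : ℤ) ∣ a ^ 2 := Dvd.dvd.pow ha (by norm_num)
      constructor
      · rintro ⟨h4, h5⟩
        have h6 := (dvd_add_left ha2).1 h5
        have h6' : (p : ℤ) ∣ (n : ℤ) ^ 2 := by exact_mod_cast h6
        have h7 := hpi.dvd_of_dvd_pow h6'
        have h8 : p ∣ n := by exact_mod_cast h7
        exact Nat.eq_zero_of_dvd_of_lt h8 h4
      · rintro rfl
        exact ⟨hp.pos, by simpa using ha2⟩

theorem om_fac (a : ℤ) {p : ℕ} (hp : p.Prime) :
    1 - ((omP (pol a) p).card : ℝ) / p = (1 - 1 / (p : ℝ)) * (if p ≠ 2 ∧ ¬ (p : ℤ) ∣ a then fc p else 1) := by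
  have h1 := card_om a hp
  have h2 : ((omP (pol a) p).card : ℝ) = (((omP (pol a) p).card : ℤ) : ℝ) := by push_cast; rfl
  have hp0 : (0 : ℝ) < p := by exact_mod_cast hp.pos
  rw [h2, h1]
  split_ifs with h
  · have h3 : (3 : ℝ) ≤ p := by
      have := hp.two_le
      exact_mod_cast (by omega : 3 ≤ p)
    unfold fc
    have e1 : (p : ℝ) - 1 ≠ 0 := by linarith
    push_cast
    field_simp
    ring
  · push_cast
    ring

/-- the sieve product -/
theorem VV_pol (a : ℤ) (X : ℕ) : VV (omP (pol a)) X = Pool.Agent.H318R2.Cr.V X * pp a X := by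
  classical
  have hV : Pool.Agent.H318R2.Cr.V X = ∏ p ∈ PR X, (1 - 1 / (p : ℝ)) := by
    unfold Pool.Agent.H318R2.Cr.V
    congr 1
  unfold VV
  have h1 : ∀ p ∈ PR X, (1 - ((omP (pol a) p).card : ℝ) / p) =
      (1 - 1 / (p : ℝ)) * (if p ≠ 2 ∧ ¬ (p : ℤ) ∣ a then fc p else 1) := by
    intro p hp
    rw [mem_PR] at hp
    exact om_fac a hp.1
  rw [prod_congr rfl h1, prod_mul_distrib, ← hV]
  congr 1
  rw [← prod_filter, pp_eq]
  apply prod_congr _ (fun _ _ => rfl)
  ext p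
  rw [mem_filter, mem_PR, mem_filter, mem_Icc]
  constructor
  · rintro ⟨⟨h2, h3⟩, h4, h5⟩
    have := h2.two_le
    exact ⟨⟨by omega, h3⟩, h2, h5⟩
  · rintro ⟨⟨h2, h3⟩, h4, h5⟩
    exact ⟨⟨h4, h3⟩, by omega, h5⟩

end Pool.Agent.H90.LT
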