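import Pool.Agent.H90.LT.Cls
import Pool.Agent.H92L.Univ
import Pool.Agent.Results.MP_0bf1d2_nt.EveryNLargeModuli

/-! # Both signs of `m`, and the law in fixed classes -/

set_option autoImplicit false

namespace Pool.Agent.H90.LT

open Finset Filter Topology Polynomial Pool.Agent.N782.GN Pool.Agent.H90.SK Pool.Agent.Helper112 Pool.Agent.H92L
open Pool.Agent.Results.MP_0bf1d2_nt.EveryNLargeModuli (count)

variable {Q : ℕ} {G : ℤ → ℤ → Prop}

/-- the number of the integers `m`, of both signs, in the class `b` -/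
noncomputable def NN (G : ℤ → ℤ → Prop) (a : ℤ) (x : ℝ) (q : ℕ) (b : ℤ) : ℝ :=
  (Set.ncard {m : ℤ | (a ^ 2 + m ^ 2).natAbs.Prime ∧ ((a ^ 2 + m ^ 2 : ℤ) : ℝ) ≤ x ∧ G a m ∧ (q : ℤ) ∣ m - b} : ℝ)

/-- the positive `m` -/
def SP (G : ℤ → ℤ → Prop) (a : ℤ) : Set ℕ := {m : ℕ | 1 ≤ m ∧ (a.natAbs ^ 2 + m ^ 2).Prime ∧ G a m}

/-- the bound for `m` -/
noncomputable def XX (a : ℤ) (x : ℝ) : ℕ := ⌊Real.sqrt (x - (a : ℝ) ^ 2)⌋₊

/-- the class `-b` -/
def ng (q b : ℕ) : ℕ := q - b % q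

theorem ng_dvd {q : ℕ} (hq : 1 ≤ q) (b : ℕ) : (q : ℤ) ∣ (ng q b : ℤ) + b := by
  unfold ng
  have h1 : b % q ≤ q := (Nat.mod_lt _ (by omega)).le
  have h2 := Nat.div_add_mod b q
  refine ⟨1 + (b / q : ℕ), ?_⟩
  push_cast [Nat.cast_sub h1]
  have h3 : (b : ℤ) = q * (b / q : ℕ) + (b % q : ℕ) := by exact_mod_cast h2.symm
  push_cast at h3
  linear_combination h3

theorem neg_iff {q : ℕ} (hq : 1 ≤ q) (b n : ℕ) : (q : ℤ) ∣ (n : ℤ) + b ↔ n ≡ ng q b [MOD q] := by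
  rw [← dvd_iff_mod]
  have h1 := ng_dvd hq b
  constructor
  · intro h
    have := dvd_sub h h1
    have e : (n : ℤ) + b - ((ng q b : ℤ) + b) = n - ng q b := by ring
    rwa [e] at this
  · intro h
    have := dvd_add h h1
    have e : (n : ℤ) - (ng q b : ℤ) + ((ng q b : ℤ) + b) = n + b := by ring
    rwa [e] at this

theorem natAbs_eq (a : ℤ) (m : ℕ) : (a ^ 2 + (m : ℤ) ^ 2).natAbs = a.natAbs ^ 2 + m ^ 2 := by
  have h : (a ^ 2 + (m : ℤ) ^ 2) = ((a.natAbs ^ 2 + m ^ 2 : ℕ) : ℤ) := by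
    push_cast
    rw [sq_abs]
  rw [h, Int.natAbs_natCast]

theorem le_XX {a : ℤ} {x : ℝ} {m : ℕ} (hm : 1 ≤ m) : ((a ^ 2 + (m : ℤ) ^ 2 : ℤ) : ℝ) ≤ x ↔ m ≤ XX a x := by
  have hm1 : (1 : ℝ) ≤ m := by exact_mod_cast hm
  unfold XX
  rw [Nat.le_floor_iff (Real.sqrt_nonneg _), Real.le_sqrt' (by linarith)]
  push_cast
  constructor
  · intro h
    linarith
  · intro h
    linarith

theorem NN_split (hG : Per Q G) (a : ℤ) (x : ℝ) {q : ℕ} (hq : 1 ≤ q) (b : ℕ) :
    NN G a x q b = count (SP G a) (XX a x) q b + count (SP G a) (XX a x) q (ng q b) := by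
  classical
  unfold NN count
  set A : Set ℕ := {n : ℕ | n ∈ SP G a ∧ 1 ≤ n ∧ n ≤ XX a x ∧ n ≡ b [MOD q]} with hA
  set B : Set ℕ := {n : ℕ | n ∈ SP G a ∧ 1 ≤ n ∧ n ≤ XX a x ∧ n ≡ ng q b [MOD q]} with hB
  have hAf : A.Finite := (Set.finite_Iic (XX a x)).subset fun n hn => hn.2.2.1
  have hBf : B.Finite := (Set.finite_Iic (XX a x)).subset fun n hn => hn.2.2.1
  have hset : {m : ℤ | (a ^ 2 + m ^ 2).natAbs.Prime ∧ ((a ^ 2 + m ^ 2 : ℤ) : ℝ) ≤ x ∧ G a m ∧ (q : ℤ) ∣ m - b} =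
      (fun n : ℕ => (n : ℤ)) '' A ∪ (fun n : ℕ => -(n : ℤ)) '' B := by
    ext m
    simp only [Set.mem_ofPred_eq, Set.mem_union, Set.mem_image]
    constructor
    · rintro ⟨h1, h2, h3, h4⟩
      have hm0 : m ≠ 0 := by
        rintro rfl
        have e : (a ^ 2 + 0 ^ 2 : ℤ).natAbs = a.natAbs ^ 2 := by
          rw [show (a ^ 2 + 0 ^ 2 : ℤ) = a ^ 2 by ring, Int.natAbs_pow]
        rw [e] at h1
        exact Nat.Prime.not_prime_pow (le_refl 2) h1
      rcases lt_or_gt_of_ne hm0 with h5 | h5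
      · right
        obtain ⟨n, hn⟩ : ∃ n : ℕ, m = -(n : ℤ) := ⟨m.natAbs, by omega⟩
        subst hn
        have hn1 : 1 ≤ n := by omega
        refine ⟨n, ⟨⟨hn1, ?_, ?_⟩, hn1, ?_, ?_⟩, rfl⟩
        · rw [← natAbs_eq]
          have e : (a ^ 2 + (-(n : ℤ)) ^ 2) = a ^ 2 + (n : ℤ) ^ 2 := by ring
          rwa [e] at h1
        · exact hG.neg_iff.1 h3
        · rw [← le_XX hn1]
          have e : (a ^ 2 + (-(n : ℤ)) ^ 2) = a ^ 2 + (n : ℤ) ^ 2 := by ring
          rwa [e] at h2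
        · rw [← neg_iff hq]
          have e : (n : ℤ) + b = -(-(n : ℤ) - b) := by ring
          rw [e, dvd_neg]
          exact h4
      · left
        obtain ⟨n, hn⟩ : ∃ n : ℕ, m = (n : ℤ) := ⟨m.natAbs, by omega⟩
        subst hn
        have hn1 : 1 ≤ n := by omega
        exact ⟨n, ⟨⟨hn1, by rw [← natAbs_eq]; exact h1, h3⟩, hn1, (le_XX hn1).1 h2, dvd_iff_mod.1 h4⟩, rfl⟩
    · rintro (⟨n, ⟨⟨h1, h2, h3⟩, h4, h5, h6⟩, rfl⟩ | ⟨n, ⟨⟨h1, h2, h3⟩, h4, h5, h6⟩, rfl⟩)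
      · exact ⟨by rw [natAbs_eq]; exact h2, (le_XX h1).2 h5, h3, dvd_iff_mod.2 h6⟩
      · have e : (a ^ 2 + (-(n : ℤ)) ^ 2) = a ^ 2 + (n : ℤ) ^ 2 := by ring
        refine ⟨by rw [e, natAbs_eq]; exact h2, by rw [e]; exact (le_XX h1).2 h5, hG.neg h3, ?_⟩
        have e2 : (-(n : ℤ) - b) = -((n : ℤ) + b) := by ring
        rw [e2, dvd_neg]
        exact (neg_iff hq b n).2 h6
  rw [hset, Set.ncard_union_eq _ (hAf.image _) (hBf.image _),
    Set.ncard_image_of_injective _ (fun x y h => by exact_mod_cast h),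
    Set.ncard_image_of_injective _ (fun x y h => by
      have h' : -(x : ℤ) = -(y : ℤ) := h
      have := neg_injective h'
      exact_mod_cast this)]
  · push_cast
    rfl
  · rw [Set.disjoint_left]
    rintro _ ⟨n, hn, rfl⟩ ⟨n', hn', h⟩
    have h1 := hn.2.1
    have h2 := hn'.2.1
    simp only at h
    omega

/-- the condition of the classes `b` and `-b` -/
def Gb (G : ℤ → ℤ → Prop) (g : ℕ) (b : ℤ) (a m : ℤ) : Prop :=
  G a m ∧ ((g : ℤ) ∣ m - b ∨ (g : ℤ) ∣ m + b) ∧ IsCoprime (a ^ 2 + m ^ 2) (g : ℤ)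

theorem Gb_per (hG : Per Q G) {g : ℕ} (hg : 1 ≤ g) (b : ℤ) : Per (Q * g) (Gb G g b) where
  one := Nat.mul_pos hG.one hg
  congr := by
    rintro a m a' m' ha hm ⟨h1, h2, h3⟩
    push_cast at ha hm
    have hQa : (Q : ℤ) ∣ a - a' := (dvd_mul_right _ _).trans ha
    have hQm : (Q : ℤ) ∣ m - m' := (dvd_mul_right _ _).trans hm
    have hga : (g : ℤ) ∣ a - a' := (dvd_mul_left _ _).trans ha
    have hgm : (g : ℤ) ∣ m - m' := (dvd_mul_left _ _).trans hm
    refine ⟨hG.congr hQa hQm h1, ?_, ?_⟩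
    · rcases h2 with h | h
      · left
        have := dvd_sub h hgm
        have e : m - b - (m - m') = m' - b := by ring
        rwa [e] at this
      · right
        have := dvd_sub h hgm
        have e : m + b - (m - m') = m' + b := by ring
        rwa [e] at this
    · obtain ⟨u, hu⟩ := hga
      obtain ⟨v, hv⟩ := hgm
      have e : a ^ 2 + m ^ 2 = (a' ^ 2 + m' ^ 2) + g * (u * (a + a') + v * (m + m')) := by
        have e1 : a ^ 2 - a' ^ 2 = g * u * (a + a') := by rw [← hu]; ring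
        have e2 : m ^ 2 - m' ^ 2 = g * v * (m + m') := by rw [← hv]; ring
        linear_combination e1 + e2
      rw [e] at h3
      exact IsCoprime.of_add_mul_left_left h3
  neg := by
    rintro a m ⟨h1, h2, h3⟩
    refine ⟨hG.neg h1, ?_, ?_⟩
    · rcases h2 with h | h
      · right
        have e : -m + b = -(m - b) := by ring
        rw [e, dvd_neg]
        exact h
      · left
        have e : -m - b = -(m + b) := by ring
        rw [e, dvd_neg]
        exact h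
    · have e : a ^ 2 + (-m) ^ 2 = a ^ 2 + m ^ 2 := by ring
      rw [e]
      exact h3
  cop := by
    rintro a m ⟨h1, _, h3⟩
    push_cast
    exact (hG.cop h1).mul_right h3

/-- the multiplicity -/
noncomputable def mu (g : ℕ) (b : ℤ) : ℝ := by
  classical
  exact if (g : ℤ) ∣ 2 * b then 2 else 1

open Classical in
theorem mu_id (g : ℕ) (b m : ℤ) : (if (g : ℤ) ∣ m - b then (1 : ℝ) else 0) + (if (g : ℤ) ∣ m + b then (1 : ℝ) else 0) =
    mu g b * (if (g : ℤ) ∣ m - b ∨ (g : ℤ) ∣ m + b then 1 else 0) := by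
  unfold mu
  by_cases h : (g : ℤ) ∣ 2 * b
  · rw [if_pos h]
    have e : (g : ℤ) ∣ m - b ↔ (g : ℤ) ∣ m + b := by
      constructor
      · intro h1
        have := dvd_add h1 h
        have e : m - b + 2 * b = m + b := by ring
        rwa [e] at this
      · intro h1
        have := dvd_sub h1 h
        have e : m + b - 2 * b = m - b := by ring
        rwa [e] at this
    by_cases h1 : (g : ℤ) ∣ m + b
    · rw [if_pos (e.2 h1), if_pos h1, if_pos (Or.inr h1)]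
      norm_num
    · rw [if_neg (fun h2 => h1 (e.1 h2)), if_neg h1, if_neg (by rw [e]; tauto)]
      norm_num
  · rw [if_neg h, one_mul]
    by_cases h1 : (g : ℤ) ∣ m - b
    · have h2 : ¬ (g : ℤ) ∣ m + b := by
        intro h2
        apply h
        have := dvd_sub h2 h1
        have e : m + b - (m - b) = 2 * b := by ring
        rwa [e] at this
      rw [if_pos h1, if_neg h2, if_pos (Or.inl h1), add_zero]
    · rw [if_neg h1, zero_add]
      by_cases h2 : (g : ℤ) ∣ m + b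
      · rw [if_pos h2, if_pos (Or.inr h2)]
      · rw [if_neg h2, if_neg (by tauto)]

theorem mu_le (g : ℕ) (b : ℤ) : 0 ≤ mu g b ∧ mu g b ≤ 2 := by
  unfold mu
  split_ifs <;> norm_num

/-- the symmetry of the classes -/
theorem kap_neg (hG : Per Q G) (a : ℤ) {q : ℕ} (hq : 1 ≤ q) (b : ℤ) : kap Q G a q (-b) = kap Q G a q b := by
  classical
  have hQ := hG.one
  set n := Q * q with hn
  have hn0 : 0 < n := Nat.mul_pos (by omega) (by omega)
  have hkey : ∀ m : ℕ, m < n → (n : ℤ) ∣ (((n - m) % n : ℕ) : ℤ) + m := by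
    intro m hm
    have h1 : (((n - m) % n : ℕ) : ℤ) = ((n - m : ℕ) : ℤ) % n := by push_cast; rfl
    have h2 : ((n - m : ℕ) : ℤ) = n - m := by push_cast [Nat.cast_sub hm.le]; ring
    have h3 : (n : ℤ) ∣ ((n - m : ℕ) : ℤ) - ((n - m : ℕ) : ℤ) % n := Int.dvd_self_sub_emod
    rw [h1]
    have h4 : ((n - m : ℕ) : ℤ) % n + m = n - (((n - m : ℕ) : ℤ) - ((n - m : ℕ) : ℤ) % n) := by
      linear_combination h2
    rw [h4]
    exact dvd_sub (dvd_refl _) h3
  have hinv : ∀ m : ℕ, m < n → (n - (n - m) % n) % n = m := by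
    intro m hm
    rcases Nat.eq_zero_or_pos m with h | h
    · subst h
      simp
    · rw [Nat.mod_eq_of_lt (by omega : n - m < n)]
      rw [Nat.mod_eq_of_lt (by omega)]
      omega
  have hmem : ∀ c : ℤ, ∀ m : ℕ, m < n → (q : ℤ) ∣ (m : ℤ) - c → G a m → IsCoprime (a ^ 2 + (m : ℤ) ^ 2) (q : ℤ) →
      (q : ℤ) ∣ (((n - m) % n : ℕ) : ℤ) - (-c) ∧ G a (((n - m) % n : ℕ) : ℤ) ∧
        IsCoprime (a ^ 2 + (((n - m) % n : ℕ) : ℤ) ^ 2) (q : ℤ) := by
    intro c m hm h1 h2 h3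
    have h4 := hkey m hm
    obtain ⟨m', hm'⟩ : ∃ m' : ℤ, m' = (((n - m) % n : ℕ) : ℤ) := ⟨_, rfl⟩
    rw [← hm'] at h4 ⊢
    have hq4 : (q : ℤ) ∣ m' + m := by
      refine (Int.natCast_dvd_natCast.2 ?_).trans h4
      exact dvd_mul_left q Q
    have hQ4 : (Q : ℤ) ∣ m' + m := by
      refine (Int.natCast_dvd_natCast.2 ?_).trans h4
      exact dvd_mul_right Q q
    refine ⟨?_, ?_, ?_⟩
    · have := dvd_sub hq4 h1
      have e : m' + m - (m - c) = m' - -c := by ring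
      rwa [e] at this
    · have h5 : G a (-(m : ℤ)) := hG.neg h2
      apply hG.congr (a := a) (m := -(m : ℤ)) (by simp) _ h5
      have e : -(m : ℤ) - m' = -(m' + m) := by ring
      rw [e, dvd_neg]
      exact hQ4
    · obtain ⟨u, hu⟩ := hq4
      have e : a ^ 2 + (m : ℤ) ^ 2 = (a ^ 2 + m' ^ 2) + q * (u * (m - m')) := by
        have : (m : ℤ) ^ 2 - m' ^ 2 = (m' + m) * (m - m') := by ring
        rw [hu] at this
        linear_combination this
      rw [e] at h3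
      exact IsCoprime.of_add_mul_left_left h3
  unfold kap
  rw [← hn]
  apply card_bij' (fun m _ => (n - m) % n) (fun m _ => (n - m) % n)
  · intro m hm
    rw [mem_filter, mem_range] at hm
    obtain ⟨h1, h2, h3, h4⟩ := hm
    rw [mem_filter, mem_range]
    have := hmem (-b) m h1 h2 h3 h4
    rw [neg_neg] at this
    exact ⟨Nat.mod_lt _ hn0, this⟩
  · intro m hm
    rw [mem_filter, mem_range] at hm
    obtain ⟨h1, h2, h3, h4⟩ := hm
    rw [mem_filter, mem_range]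
    exact ⟨Nat.mod_lt _ hn0, hmem b m h1 h2 h3 h4⟩
  · intro m hm
    rw [mem_filter, mem_range] at hm
    exact hinv m hm.1
  · intro m hm
    rw [mem_filter, mem_range] at hm
    exact hinv m hm.1

theorem cl_card (hG : Per Q G) (a : ℤ) {g : ℕ} (hg : 1 ≤ g) (b : ℤ) :
    mu g b * ((cl (Q * g) (Gb G g b) a).card : ℝ) = 2 * kap Q G a g b := by
  classical
  set F := (range (Q * g)).filter (fun m : ℕ => G a m ∧ IsCoprime (a ^ 2 + (m : ℤ) ^ 2) (g : ℤ)) with hF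
  have h1 : ∀ c : ℤ, (kap Q G a g c : ℝ) = ∑ m ∈ F, if (g : ℤ) ∣ (m : ℤ) - c then (1 : ℝ) else 0 := by
    intro c
    rw [← sum_filter, sum_const, nsmul_eq_mul, mul_one, hF, filter_filter]
    unfold kap
    rw [Nat.cast_inj]
    apply congrArg Finset.card
    apply filter_congr
    intro m _
    tauto
  have h2 : ((cl (Q * g) (Gb G g b) a).card : ℝ) = ∑ m ∈ F, if (g : ℤ) ∣ (m : ℤ) - b ∨ (g : ℤ) ∣ (m : ℤ) + b then (1 : ℝ) else 0 := by
    rw [← sum_filter, sum_const, nsmul_eq_mul, mul_one, hF, filter_filter]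
    unfold cl Gb
    rw [Nat.cast_inj]
    congr 1
    ext m
    simp only [mem_filter]
    tauto
  have h3 : (kap Q G a g b : ℝ) + kap Q G a g (-b) = mu g b * ((cl (Q * g) (Gb G g b) a).card : ℝ) := by
    rw [h1, h1, h2, ← sum_add_distrib, mul_sum]
    apply sum_congr rfl
    intro m _
    rw [sub_neg_eq_add]
    exact mu_id g b m
  rw [← h3, kap_neg hG a hg b]
  ring

open Classical in
theorem count_sum (S : Set ℕ) (X q c : ℕ) : count S X q c = ∑ m ∈ (Icc 1 X).filter (fun m => m ∈ S), if m ≡ c [MOD q] then (1 : ℝ) else 0 := by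
  rw [← sum_filter, sum_const, nsmul_eq_mul, mul_one, filter_filter,
    Pool.Agent.Results.MP_0bf1d2_nt.EveryNLargeModuli.count_eq]

theorem NN_piG (hG : Per Q G) (a : ℤ) (x : ℝ) {g : ℕ} (hg : 1 ≤ g) (b : ℕ) :
    |NN G a x g b - mu g b * (piG (Gb G g b) a x : ℝ)| ≤ 2 * g := by
  classical
  rw [NN_split hG a x hg b, count_sum, count_sum, ← sum_add_distrib]
  set F := (Icc 1 (XX a x)).filter (fun m => m ∈ SP G a) with hF
  have h1 : ∀ m ∈ F, ((if m ≡ b [MOD g] then (1 : ℝ) else 0) + (if m ≡ ng g b [MOD g] then (1 : ℝ) else 0)) =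
      mu g b * (if (g : ℤ) ∣ (m : ℤ) - b ∨ (g : ℤ) ∣ (m : ℤ) + b then 1 else 0) := by
    intro m _
    rw [← mu_id]
    congr 1
    · by_cases h : m ≡ b [MOD g]
      · rw [if_pos h, if_pos (dvd_iff_mod.2 h)]
      · rw [if_neg h, if_neg (fun h' => h (dvd_iff_mod.1 h'))]
    · by_cases h : m ≡ ng g b [MOD g]
      · rw [if_pos h, if_pos ((neg_iff hg b m).2 h)]
      · rw [if_neg h, if_neg (fun h' => h ((neg_iff hg b m).1 h'))]
  rw [sum_congr rfl h1, ← mul_sum]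
  have h2 : (piG (Gb G g b) a x : ℝ) = ∑ m ∈ F.filter (fun m : ℕ => IsCoprime (a ^ 2 + (m : ℤ) ^ 2) (g : ℤ)),
      if (g : ℤ) ∣ (m : ℤ) - b ∨ (g : ℤ) ∣ (m : ℤ) + b then (1 : ℝ) else 0 := by
    rw [← sum_filter, sum_const, nsmul_eq_mul, mul_one, hF, filter_filter, filter_filter]
    unfold piG Gb
    rw [Nat.cast_inj]
    apply congrArg Finset.card
    unfold XX SP
    ext m
    simp only [mem_filter, mem_Icc, Set.mem_ofPred_eq]
    tauto
  rw [h2, ← mul_sub]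
  have h3 := sum_filter_add_sum_filter_not F (fun m : ℕ => IsCoprime (a ^ 2 + (m : ℤ) ^ 2) (g : ℤ))
    (fun m : ℕ => if (g : ℤ) ∣ (m : ℤ) - b ∨ (g : ℤ) ∣ (m : ℤ) + b then (1 : ℝ) else 0)
  rw [← h3, add_sub_cancel_left, abs_mul, abs_of_nonneg (mu_le g b).1]
  have h4 : |∑ m ∈ F.filter (fun m : ℕ => ¬ IsCoprime (a ^ 2 + (m : ℤ) ^ 2) (g : ℤ)),
      if (g : ℤ) ∣ (m : ℤ) - b ∨ (g : ℤ) ∣ (m : ℤ) + b then (1 : ℝ) else 0| ≤ g := by
    rw [abs_of_nonneg (sum_nonneg fun m _ => by split_ifs <;> norm_num)]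
    calc _ ≤ ∑ m ∈ F.filter (fun m : ℕ => ¬ IsCoprime (a ^ 2 + (m : ℤ) ^ 2) (g : ℤ)), (1 : ℝ) := by
          apply sum_le_sum
          intro m _
          split_ifs <;> norm_num
      _ = ((F.filter (fun m : ℕ => ¬ IsCoprime (a ^ 2 + (m : ℤ) ^ 2) (g : ℤ))).card : ℝ) := by
          rw [sum_const, nsmul_eq_mul, mul_one]
      _ ≤ g := by
          have h5 : F.filter (fun m : ℕ => ¬ IsCoprime (a ^ 2 + (m : ℤ) ^ 2) (g : ℤ)) ⊆ Icc 1 g := by
            intro m hm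
            rw [mem_filter, hF, mem_filter, mem_Icc] at hm
            obtain ⟨⟨⟨h6, _⟩, _, h7, _⟩, h8⟩ := hm
            rw [mem_Icc]
            refine ⟨h6, ?_⟩
            rw [Int.isCoprime_iff_gcd_eq_one] at h8
            have h9 : (a ^ 2 + (m : ℤ) ^ 2).gcd g = Nat.gcd (a.natAbs ^ 2 + m ^ 2) g := by
              unfold Int.gcd
              rw [natAbs_eq, Int.natAbs_natCast]
            rw [h9] at h8
            have h10 : (a.natAbs ^ 2 + m ^ 2) ∣ g := by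
              rcases (Nat.dvd_prime h7).1 (Nat.gcd_dvd_left (a.natAbs ^ 2 + m ^ 2) g) with h | h
              · exact absurd h h8
              · rw [← h]
                exact Nat.gcd_dvd_right _ _
            have h11 := Nat.le_of_dvd (by omega) h10
            have h12 : m ≤ m ^ 2 := Nat.le_self_pow (by norm_num) m
            omega
          have := card_le_card h5
          rw [Nat.card_Icc, Nat.add_sub_cancel] at this
          exact_mod_cast this
  have h5 := (mu_le g b).2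
  have h6 := (mu_le g b).1
  calc _ ≤ mu g b * g := mul_le_mul_of_nonneg_left h4 h6
    _ ≤ 2 * g := mul_le_mul_of_nonneg_right h5 (Nat.cast_nonneg _)

/-- `∫_2^{√x} dt / log t` -/
noncomputable def Li (x : ℝ) : ℝ := ∫ t in (2 : ℝ)..(Real.sqrt x), 1 / Real.log t

theorem Li_half (x : ℝ) : ∫ t in (2 : ℝ)..(Real.sqrt x), 1 / (2 * Real.log t) = 1 / 2 * Li x := by
  unfold Li
  rw [← intervalIntegral.integral_const_mul]
  congr 1
  funext t
  rw [one_div, one_div, mul_inv]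
  ring

theorem cst_eq {q : ℕ} {H : ℤ → ℤ → Prop} (hH : Per q H) {a : ℤ} (ha : a ≠ 0) :
    cst q H a = ((cl q H a).card : ℝ) / (Nat.totient q : ℝ) * SS ((q : ℤ) * a) := by
  have h1 := (constant hH ha).2.2
  have hqa : (q : ℤ) * a ≠ 0 := mul_ne_zero (by have := hH.one; exact_mod_cast (by omega : q ≠ 0)) ha
  have h2 := ((c_ssl _ hqa).1).const_mul (((cl q H a).card : ℝ) / (Nat.totient q : ℝ))
  exact tendsto_nhds_unique h1 h2

/-- the law in a fixed class -/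
theorem fixed_class (hG : Per Q G) {E : Set ℤ}
    (hU : ∀ (q : ℕ) (G : ℤ → ℤ → Prop), Per q G → ∀ (ε : ℝ) (A : ℕ), 0 < ε → ∃ a₀ : ℝ, ∀ a : ℤ, a ∉ E → a₀ ≤ |(a : ℝ)| →
      ∀ x : ℝ, |(a : ℝ)| ^ (2 + ε) ≤ x → x ≤ |(a : ℝ)| ^ (3 - ε) →
        |(piG G a x : ℝ) - cst q G a * ∫ t in (2 : ℝ)..(Real.sqrt x), 1 / (2 * Real.log t)| ≤
          Real.sqrt x / (Real.log x) ^ A) {g : ℕ} (hg : 1 ≤ g) (b : ℕ) {ε : ℝ} (hε : 0 < ε) (A : ℕ) :
    ∃ a₀ : ℝ, ∀ a : ℤ, a ∉ E → a₀ ≤ |(a : ℝ)| → ∀ x : ℝ, |(a : ℝ)| ^ (2 + ε) ≤ x → x ≤ |(a : ℝ)| ^ (3 - ε) →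
      |NN G a x g b - CC Q G a g b * Li x| ≤ 2 * (Real.sqrt x / (Real.log x) ^ A) + 2 * g := by
  have hP := Gb_per hG hg (b : ℤ)
  obtain ⟨a₀, h⟩ := hU (Q * g) (Gb G g b) hP ε A hε
  refine ⟨max a₀ 1, fun a haE ha x hx1 hx2 => ?_⟩
  have ha0 : a₀ ≤ |(a : ℝ)| := (le_max_left _ _).trans ha
  have ha1 : 1 ≤ |(a : ℝ)| := (le_max_right _ _).trans ha
  have hane : a ≠ 0 := by
    rintro rfl
    simp at ha1
    linarith
  have h1 := h a haE ha0 x hx1 hx2
  rw [Li_half, cst_eq hP hane] at h1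
  have h2 := NN_piG hG a x hg b
  have h3 := cl_card hG a hg (b : ℤ)
  have h4 := mu_le g b
  have e : ((Q * g : ℕ) : ℤ) * a = (Q : ℤ) * a * g := by push_cast; ring
  rw [e] at h1
  have h5 : mu g b * (((cl (Q * g) (Gb G g b) a).card : ℝ) / (Nat.totient (Q * g) : ℝ) * SS ((Q : ℤ) * a * g) * (1 / 2 * Li x)) =
      CC Q G a g b * Li x := by
    unfold CC
    have : mu g b * (((cl (Q * g) (Gb G g b) a).card : ℝ) / (Nat.totient (Q * g) : ℝ) * SS ((Q : ℤ) * a * g) * (1 / 2 * Li x)) =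
      (mu g b * ((cl (Q * g) (Gb G g b) a).card : ℝ)) / (Nat.totient (Q * g) : ℝ) * SS ((Q : ℤ) * a * g) * (1 / 2 * Li x) := by ring
    rw [this, h3]
    ring
  have h6 : |mu g b * (piG (Gb G g b) a x : ℝ) - CC Q G a g b * Li x| ≤ 2 * (Real.sqrt x / (Real.log x) ^ A) := by
    rw [← h5, ← mul_sub, abs_mul, abs_of_nonneg h4.1]
    exact mul_le_mul h4.2 h1 (abs_nonneg _) (by norm_num)
  have e2 : NN G a x g b - CC Q G a g b * Li x = (NN G a x g b - mu g b * (piG (Gb G g b) a x : ℝ)) +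
      (mu g b * (piG (Gb G g b) a x : ℝ) - CC Q G a g b * Li x) := by ring
  rw [e2]
  refine (abs_add_le _ _).trans ?_
  linarith

end Pool.Agent.H90.LT
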